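import Pool.Agent.J4H25.NPP.Np
import Pool.Agent.J4H45.NPP.Up

set_option autoImplicit false

/-!
# The new sets are in `UP`; two different hits are rare
-/

namespace Pool.Agent.J4H25.NPP

open MeasureTheory Filter Pool.Agent.NPC Pool.Agent.H628R3.RO Pool.Agent.J4H63.ESY Pool.Agent.J4H45.OPT
open Pool.Agent.J4H45.EXP (T wds selL selL_map lg_T T_strictMono le_T T_pos two_pow_T_le two_pow_T_lt
  mem_wds card_wds ofL_filter')
open Pool.Agent.J4H45.NPP (ev measure_ev)

/-- two different candidates (of the copies `c`, `c'`) are hits at stage `i`, level `l` -/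
def Tw (c c' i l : ℕ) : Set Oracle :=
  {A | ∃ w w' : List Bool, w.length = T i ∧ w'.length = T i ∧ (c, w) ≠ (c', w') ∧
    Hit (T i + ax l) (c, w) A ∧ Hit (T i + ax l) (c', w') A}

/-- two different hits are rare -/
theorem two_bound (c c' i m : ℕ) {R : Set Oracle} (hR : Loc {x | x.length ≤ T i} R) :
    randomOracle (R ∩ Tw c c' i m) ≤ 2⁻¹ ^ (2 * ax m) * randomOracle R := by
  classical
  set n := T i with hn
  set a := ax m with ha
  set I : Finset (List Bool × List Bool) :=
    ((wds n) ×ˢ (wds n)).filter (fun t => (c, t.1) ≠ (c', t.2)) with hI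
  have hsub : R ∩ Tw c c' i m ⊆ ⋃ t ∈ I, (R ∩ ev (n + a) {(c, t.1), (c', t.2)}) := by
    rintro A ⟨hA, w, w', hw, hw', hne, h1, h2⟩
    rw [Set.mem_iUnion₂]
    refine ⟨(w, w'), Finset.mem_filter.2 ⟨Finset.mem_product.2 ⟨mem_wds.2 hw, mem_wds.2 hw'⟩,
      hne⟩, hA, ?_⟩
    intro κ hκ
    rw [Finset.mem_insert, Finset.mem_singleton] at hκ
    rcases hκ with rfl | rfl
    · exact h1
    · exact h2
  refine (measure_mono hsub).trans ((measure_biUnion_finset_le _ _).trans ?_)
  have h1 : ∀ t ∈ I, randomOracle (R ∩ ev (n + a) {(c, t.1), (c', t.2)}) =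
      randomOracle R * 2⁻¹ ^ (2 * (n + a)) := by
    intro t ht
    rw [hI, Finset.mem_filter, Finset.mem_product, mem_wds, mem_wds] at ht
    rw [measure_ev hR]
    · rw [Finset.card_pair ht.2]
    · intro κ hκ
      rw [Finset.mem_insert, Finset.mem_singleton] at hκ
      rcases hκ with rfl | rfl
      · exact ht.1.1
      · exact ht.1.2
  rw [Finset.sum_congr rfl h1, Finset.sum_const, nsmul_eq_mul]
  have hc : ((I.card : ℕ) : ENNReal) ≤ 2 ^ n * 2 ^ n := by
    have h2 : I.card ≤ 2 ^ n * 2 ^ n := by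
      refine (Finset.card_filter_le _ _).trans ?_
      rw [Finset.card_product, card_wds]
    exact_mod_cast h2
  calc ((I.card : ℕ) : ENNReal) * (randomOracle R * 2⁻¹ ^ (2 * (n + a)))
      ≤ 2 ^ n * 2 ^ n * (randomOracle R * 2⁻¹ ^ (2 * (n + a))) := by gcongr
    _ = (2 ^ (2 * n) * 2⁻¹ ^ (2 * n)) * (2⁻¹ ^ (2 * a) * randomOracle R) := by
        rw [mul_add, pow_add, two_mul n, pow_add 2 n n]
        ring
    _ = 2⁻¹ ^ (2 * a) * randomOracle R := by
        rw [← mul_pow, ENNReal.mul_inv_cancel (by norm_num) (by norm_num), one_pow, one_mul]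

theorem loc_Tw {M : ℕ → Alg} {p : ℕ → Polynomial ℕ} {K i0 : ℕ} (ok : Ok M p K i0) {i : ℕ}
    (hi : i0 ≤ i) {l : ℕ} (hl : l ≤ i) {c c' : ℕ} (hc : c < 2) (hc' : c' < 2) :
    Loc {x | x.length ≤ 2 ^ T i} (Tw c c' i l) := by
  intro A A' hA
  have e1 := ax_le' l
  have e2 := le_T i
  have e3 := ok.spots i hi
  have key : ∀ d < 2, ∀ w : List Bool, w.length = T i →
      (Hit (T i + ax l) (d, w) A ↔ Hit (T i + ax l) (d, w) A') := by
    intro d hd w hw
    refine forall₂_congr fun b hb => ?_
    rw [hA]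
    simp only [Set.mem_ofPred_eq]
    rw [length_pos]
    omega
  unfold Tw
  simp only [Set.mem_ofPred_eq]
  constructor
  · rintro ⟨w, w', hw, hw', hne, h1, h2⟩
    exact ⟨w, w', hw, hw', hne, (key c hc w hw).1 h1, (key c' hc' w' hw').1 h2⟩
  · rintro ⟨w, w', hw, hw', hne, h1, h2⟩
    exact ⟨w, w', hw, hw', hne, (key c hc w hw).2 h1, (key c' hc' w' hw').2 h2⟩

/-! ### The verifier accepts the hits -/

theorem decN_iff {O : Oracle → Oracle} (E : Emb2 O) {M : ℕ → Alg} {p : ℕ → Polynomial ℕ}
    {K i0 : ℕ} (ok : Ok M p K i0) {i1 : ℕ} (hi1 : i0 ≤ i1) (A : Oracle) (c : ℕ)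
    (x w : List Bool) :
    decN E.g M p K i0 i1 x w ((askN E.g c (x, w)).map (O A)) = true ↔
      ∃ i, i1 ≤ i ∧ x = List.replicate (T i) false ∧ w.length = T i ∧
        Hit (T i + ax (lv O M p K i0 A i)) (c, w) A := by
  have hans : (askN E.g c (x, w)).map (O A) =
      (strs (lg x.length)).map (O A) ++ (asks (2 * x.length + 8) c w).map A := by
    unfold askN
    rw [List.map_append, map_map_emb E.toEmb]
  have htake : ((askN E.g c (x, w)).map (O A)).take (strs (lg x.length)).length =
      (strs (lg x.length)).map (O A) := by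
    rw [hans, List.take_left' (by rw [List.length_map])]
  have hdrop : ((askN E.g c (x, w)).map (O A)).drop (strs (lg x.length)).length =
      (asks (2 * x.length + 8) c w).map A := by
    rw [hans, List.drop_left' (by rw [List.length_map])]
  have hlev : ∀ i, i1 ≤ i → x.length = T i →
      levL E.g M p K i0 ((strs (lg x.length)).filter (O A)) x.length i = lv O M p K i0 A i := by
    intro i hi hx
    rw [hx]
    exact levL_eq E ok (hi1.trans hi) fun y hy => ofL_filter' _ hy
  have hix : ∀ i, ix (T i) = 2 * i + 1 := fun i => ix_tw (2 * i)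
  have hhit : ∀ i, x.length = T i →
      ((((asks (2 * x.length + 8) c w).map A).take (x.length + ax (lv O M p K i0 A i))).all id = true ↔
        Hit (T i + ax (lv O M p K i0 A i)) (c, w) A) := by
    intro i hx
    rw [← List.map_take, ← asks_all]
    have e1 := ax_le' (lv O M p K i0 A i)
    have e2 := (lv_le' (O := O) (M := M) (p := p) (K := K) (i0 := i0) A i).trans (le_T i)
    have e3 : (asks (2 * x.length + 8) c w).take (x.length + ax (lv O M p K i0 A i)) =
        asks (T i + ax (lv O M p K i0 A i)) c w := by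
      unfold asks
      rw [← List.map_take, take_range' _ _ (by omega), hx]
    rw [e3]
  unfold decN
  rw [htake, hdrop, selL_map]
  simp only [Bool.and_eq_true, decide_eq_true_eq]
  constructor
  · rintro ⟨hx, hwl, h3, h4, h5⟩
    have hT : x.length = T (ix x.length / 2) := tw_of_ix h3
    rw [hlev _ h4 hT] at h5
    refine ⟨ix x.length / 2, h4, ?_, by rw [hwl, ← hT], (hhit _ hT).1 h5⟩
    rw [← hT]
    exact hx
  · rintro ⟨i, hi, hx, hw, hh⟩
    have hl : x.length = T i := by rw [hx, List.length_replicate]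
    have h1 : ix x.length = 2 * i + 1 := by rw [hl, hix]
    have h2 : ix x.length / 2 = i := by rw [h1]; omega
    rw [h2, hlev i hi hl]
    refine ⟨?_, by rw [hw, hl], h1, hi, (hhit i hl).2 hh⟩
    rw [hl]
    exact hx

/-- a language with unique witnesses checked by nonadaptive questions to the oracle is in `UP` -/
theorem isUP_of_tt (A : Oracle) (L : Set (List Bool))
    {Q : List Bool × List Bool → List (List Bool)}
    {T : (List Bool × List Bool) × List Bool → Bool} (hQ : Poly Q) (hT : Poly T)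
    (p : Polynomial ℕ)
    (h : ∀ x, x ∈ L ↔ ∃ w : List Bool, w.length ≤ p.eval x.length ∧
      T ((x, w), (Q (x, w)).map A) = true)
    (hu : ∀ x w w', T ((x, w), (Q (x, w)).map A) = true →
      T ((x, w'), (Q (x, w')).map A) = true → w = w') : IsUP A L := by
  have h1 : IsFP A (fun y => (fun z : List Bool × List Bool => [T (unpair z.1, z.2)])
      (y, ((fun y => Q (unpair y)) y).map A)) := by
    refine IsFP.tt (Q := fun y => Q (unpair y)) (H := fun z => [T (unpair z.1, z.2)])
      (hQ.comp poly_unpair) ?_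
    exact Poly.cons (hT.comp (Poly.pair (poly_unpair.comp (Poly.fst Poly.id))
      (Poly.snd Poly.id))) (NPC.Poly.const [])
  refine ⟨_, p, h1, fun x => ?_, fun x w w' _ _ hw hw' => ?_⟩
  · rw [h x]
    refine exists_congr fun w => and_congr_right fun _ => ?_
    simp only [unpair_pairBits, List.cons.injEq, and_true]
  · simp only [unpair_pairBits, List.cons.injEq, and_true] at hw hw'
    exact hu x w w' hw hw'

theorem IsUP.isNP {A : Oracle} {L : Set (List Bool)} (h : IsUP A L) : IsNP A L := by
  obtain ⟨V, p, h1, h2, -⟩ := h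
  exact ⟨V, p, h1, h2⟩

/-- `UP` is closed under adding one string -/
theorem IsUP.insert {A : Oracle} {L : Set (List Bool)} (h : IsUP A L) (s : List Bool) :
    IsUP A (insert s L) := by
  obtain ⟨V, p, h1, h2, h3⟩ := h
  have hu : Poly (fun z : List Bool × List Bool × List Bool => unpair z.1) :=
    poly_unpair.comp (Poly.fst Poly.id)
  obtain ⟨V', hV'⟩ : ∃ V' : List Bool → List Bool, V' = fun y =>
      if (unpair y).1 = s then (if (unpair y).2 = [] then [true] else []) else V y := ⟨_, rfl⟩
  have h4 : IsFP A V' := by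
    rw [hV']
    exact IsFP.seq (φ := fun z => z.1) (ψ := fun z =>
      if (unpair z.1).1 = s then (if (unpair z.1).2 = [] then [true] else []) else z.2.1) h1 h1
      (Poly.fst Poly.id) (Poly.ite (Poly.decide_eq (Poly.fst hu) (NPC.Poly.const s))
        (Poly.ite (Poly.decide_eq (Poly.snd hu) (NPC.Poly.const [])) (NPC.Poly.const _)
          (NPC.Poly.const _)) (Poly.fst (Poly.snd Poly.id)))
  have hV : ∀ x w : List Bool, x ≠ s → V' (pairBits x w) = V (pairBits x w) := by
    intro x w hx
    rw [hV']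
    simp only [unpair_pairBits]
    rw [if_neg hx]
  have hs : ∀ w : List Bool, V' (pairBits s w) = [true] ↔ w = [] := by
    intro w
    rw [hV']
    simp only [unpair_pairBits, if_true]
    by_cases hw : w = []
    · simp [hw]
    · simp [hw]
  refine ⟨V', p, h4, fun x => ?_, fun x w w' hwl hwl' hw hw' => ?_⟩
  · by_cases hx : x = s
    · subst hx
      simp only [Set.mem_insert_iff, true_or, true_iff]
      exact ⟨[], Nat.zero_le _, (hs []).2 rfl⟩
    · rw [Set.mem_insert_iff, or_iff_right hx, h2 x]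
      refine exists_congr fun w => and_congr_right fun _ => ?_
      rw [hV x w hx]
  · by_cases hx : x = s
    · subst hx
      rw [(hs w).1 hw, (hs w').1 hw']
    · rw [hV x w hx] at hw
      rw [hV x w' hx] at hw'
      exact h3 x w w' hwl hwl' hw hw'

/-- the new sets are in `UP` if there are no two hits -/
theorem isUP_Lg {O : Oracle → Oracle} (E : Emb2 O) {M : ℕ → Alg} {p : ℕ → Polynomial ℕ}
    {K i0 : ℕ} (ok : Ok M p K i0) {i1 : ℕ} (hi1 : i0 ≤ i1) (A : Oracle) (c : ℕ)
    (hU : ∀ i, i1 ≤ i → A ∉ Tw c c i (lv O M p K i0 A i)) :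
    IsUP (O A) (Lg O M p K i0 i1 A c) := by
  refine isUP_of_tt (O A) _ (Q := askN E.g c)
    (T := fun z => decN E.g M p K i0 i1 z.1.1 z.1.2 z.2) (p_askN c E.pg)
    (p_decN M p K i0 i1 E.pg) Polynomial.X (fun x => ?_) (fun x w w' hw hw' => ?_)
  · constructor
    · rintro ⟨i, hi, hx, w, hw, hh⟩
      refine ⟨w, ?_, (decN_iff E ok hi1 A c x w).2 ⟨i, hi, hx, hw, hh⟩⟩
      rw [Polynomial.eval_X, hx, List.length_replicate, hw]
    · rintro ⟨w, -, hw⟩
      obtain ⟨i, hi, hx, hwl, hh⟩ := (decN_iff E ok hi1 A c x w).1 hw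
      exact ⟨i, hi, hx, w, hwl, hh⟩
  · obtain ⟨i, hi, hx, hwl, hh⟩ := (decN_iff E ok hi1 A c x w).1 hw
    obtain ⟨i', hi', hx', hwl', hh'⟩ := (decN_iff E ok hi1 A c x w').1 hw'
    have hii : i' = i := by
      apply T_strictMono.injective
      have h1 := congrArg List.length hx
      have h2 := congrArg List.length hx'
      rw [List.length_replicate] at h1 h2
      omega
    subst hii
    by_contra hne
    exact hU i' hi ⟨w, w', hwl, hwl', fun h => hne (Prod.ext_iff.1 h).2, hh, hh'⟩

end Pool.Agent.J4H25.NPP
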