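import Pool.Agent.J4H25.NPP.Bd
import Pool.Agent.J4H25.NPP.Uq

set_option autoImplicit false

/-!
# Failures of reductions with long padding
-/

namespace Pool.Agent.J4H25.NPP

open MeasureTheory Filter Pool.Agent.NPC Pool.Agent.H628R3.RO Pool.Agent.J4H63.ESY Pool.Agent.J4H45.OPT
open Pool.Agent.J4H45.EXP (T wds T_strictMono le_T T_pos two_pow_T_le two_pow_T_lt mem_wds card_wds)
open Pool.Agent.J4H98.NPP (mem_congr loc_Hev)
open Pool.Agent.J4H81.NPP (size_le touched mem_good hit_plant off_plant)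

/-- the reduction `x ↦ h |x| (F x)` fails at stage `i` -/
def FlP (O : Oracle → Oracle) (M : ℕ → Alg) (p : ℕ → Polynomial ℕ)
    (h : ℕ → List Bool → List Bool) (MF : Alg) (i l : ℕ) : Set Oracle :=
  {A | ∃ c, c < 2 ∧ A ∈ Hev c i l ∧ ¬ Mem (M c) (p c) (O A) (h (T i) (qF O MF A i))}

/-- `h n q` is short for all `q` of polynomial length -/
def Short (K : ℕ) (h : ℕ → List Bool → List Bool) : Prop :=
  ∀ b : Polynomial ℕ, ∃ N, ∀ n ≥ N, ∀ q : List Bool, q.length ≤ b.eval n →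
    K * (h n q).length.size ≤ n

theorem short_id (K : ℕ) : Short K (fun _ q => q) := by
  intro b
  obtain ⟨N, hN⟩ := size_le b K
  exact ⟨N, fun n hn q hq => hN n hn _ hq⟩

/-- padding with `2 ^ (n / k)` letters -/
def padE (k n : ℕ) (q : List Bool) : List Bool := pairBits q (List.replicate (2 ^ (n / k)) false)

theorem short_pad {K : ℕ} (hK : 1 ≤ K) : Short K (padE (4 * K)) := by
  intro b
  obtain ⟨N, hN⟩ := size_le (Polynomial.C 2 * b + Polynomial.C 1) (4 * K)
  refine ⟨N + 8 * K, fun n hn q hq => ?_⟩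
  have h1 := hN n (by omega) (2 * q.length + 1) (by
    simp only [Polynomial.eval_add, Polynomial.eval_mul, Polynomial.eval_C]
    omega)
  unfold padE
  rw [length_pairBits_A3, List.length_replicate]
  set s := (2 * q.length + 1).size with hs
  have h2 : 2 * q.length + 1 < 2 ^ s := Nat.lt_size_self _
  have h3 : s ≤ n / (4 * K) := by
    rw [Nat.le_div_iff_mul_le (by omega)]
    rw [mul_comm]
    exact h1
  have h4 : 2 ^ s ≤ 2 ^ (n / (4 * K)) := Nat.pow_le_pow_right (by norm_num) h3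
  have h5 : (2 * q.length + 1 + 2 ^ (n / (4 * K))).size ≤ n / (4 * K) + 1 := by
    rw [Nat.size_le, pow_succ]
    omega
  have h6 : 4 * K * (n / (4 * K)) ≤ n := Nat.mul_div_le _ _
  calc K * (2 * q.length + 1 + 2 ^ (n / (4 * K))).size ≤ K * (n / (4 * K) + 1) :=
        Nat.mul_le_mul_left _ h5
    _ ≤ n := by nlinarith

section

variable {O : Oracle → Oracle} (E : Emb2 O) {M : ℕ → Alg} {p : ℕ → Polynomial ℕ} {K i0 : ℕ}
  (ok : Ok M p K i0) {h : ℕ → List Bool → List Bool} (hh : Short K h)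

include hh in
theorem size_qF (MF : Alg) : ∃ N, ∀ i ≥ N, ∀ A : Oracle,
    K * (h (T i) (qF O MF A i)).length.size ≤ T i := by
  obtain ⟨b, hb⟩ := MF.out_length
  obtain ⟨N, hN⟩ := hh b
  refine ⟨N, fun i hi A => hN (T i) (hi.trans (le_T i)) _ ?_⟩
  unfold qF
  rcases ho : MF.out (O A) (List.replicate (T i) false) with _ | z
  · simp
  · have := hb _ _ _ ho
    rw [List.length_replicate] at this
    simpa using this

include E ok hh in
theorem loc_FlP (MF : Alg) : ∃ i1 ≥ i0, ∀ i ≥ i1, ∀ l ≤ i,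
    Loc {x | x.length ≤ 2 ^ T i} (FlP O M p h MF i l) := by
  obtain ⟨qb, hq⟩ := MF.out_congr
  obtain ⟨N1, h1⟩ := eventually_atTop.1 (H529R3.Lev.poly_le_two_pow qb)
  obtain ⟨N2, h2⟩ := size_qF (O := O) hh MF
  refine ⟨i0 + N1 + N2, by omega, fun i hi l hl A A' hA => ?_⟩
  have h3 := le_T i
  have h4 : qb.eval (T i) ≤ 2 ^ T i := h1 (T i) (by omega)
  have e1 : MF.out (O A) (List.replicate (T i) false) =
      MF.out (O A') (List.replicate (T i) false) := by
    refine hq (O A) (O A') _ (T i) (by rw [List.length_replicate]) fun x hx => ?_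
    exact E.loc x A A' (hA _ ((E.len x).trans (hx.trans h4)))
  have e2 : qF O MF A i = qF O MF A' i := by
    unfold qF
    rw [e1]
  have e4 := h2 i (by omega) A'
  refine exists_congr fun c => and_congr_right fun hc => ?_
  rw [e2]
  refine and_congr (loc_Hev ok (by omega) hl hc A A' fun x hx => hA x hx.2) (not_congr ?_)
  exact mem_congr E ok (by omega) e4 hc hA

include E hh in
theorem plant_FlP (MF : Alg) : ∃ i1 ≥ i0, ∀ i ≥ i1, ∀ l, ∀ A ∉ Cap O M p K i l,
    ∃ c < 2, ∃ I' ⊆ wds (T i), 2 ^ T i ≤ 4 * I'.card ∧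
      ∀ w ∈ I', plant (spots (T i + ax l) (c, w)) A ∈ FlP O M p h MF i l := by
  classical
  obtain ⟨N1, h1⟩ := size_qF (O := O) hh MF
  obtain ⟨N2, h2⟩ := Filter.eventually_atTop.1
    (_root_.H529R3.Lev.poly_le_two_pow (Polynomial.C 4 * MF.p))
  refine ⟨i0 + N1 + N2, by omega, fun i hi l A hA => ?_⟩
  have hTi := Pool.Agent.J4H45.EXP.le_T i
  obtain ⟨q, hq⟩ : ∃ q, q = h (T i) (qF O MF A i) := ⟨_, rfl⟩
  have hsize : K * q.length.size ≤ T i := by
    rw [hq]
    exact h1 i (by omega) A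
  have hnot : ∃ c < 2, 2 * (good O M p A c (T i) (T i + ax l) q).card < 2 ^ T i := by
    by_contra hcon
    push Not at hcon
    exact hA ⟨q, hsize, hcon 0 (by norm_num), hcon 1 (by norm_num)⟩
  obtain ⟨c, hc, hcard⟩ := hnot
  obtain ⟨S, hS, hf⟩ := touched E.toEmb MF A (List.replicate (T i) false) (T i)
  have hS4 : 4 * S.card ≤ 2 ^ T i := by
    have h3 := h2 (T i) (by omega)
    rw [Polynomial.eval_mul, Polynomial.eval_C] at h3
    rw [List.length_replicate] at hS
    omega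
  refine ⟨c, hc, (wds (T i) \ good O M p A c (T i) (T i + ax l) q) \ S, ?_, ?_, ?_⟩
  · exact Finset.sdiff_subset.trans Finset.sdiff_subset
  · have h3 := Finset.le_card_sdiff S (wds (T i) \ good O M p A c (T i) (T i + ax l) q)
    have h4 := Finset.le_card_sdiff (good O M p A c (T i) (T i + ax l) q) (wds (T i))
    rw [card_wds] at h4
    omega
  · intro w hw
    rw [Finset.mem_sdiff, Finset.mem_sdiff, mem_wds] at hw
    obtain ⟨⟨hw, hg⟩, hwS⟩ := hw
    refine ⟨c, hc, ⟨w, hw, hit_plant c _ w A⟩, ?_⟩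
    have e : qF O MF (plant (spots (T i + ax l) (c, w)) A) i = qF O MF A i := by
      unfold qF
      rw [hf w hw hwS _ (off_plant c _ w A)]
    rw [e, ← hq]
    intro hm
    exact hg (mem_good.2 ⟨hw, hm⟩)

include E ok hh in
theorem fail_boundP (MF : Alg) : ∃ i1 ≥ i0, (∀ i ≥ i1, ∀ l ≤ i,
    Loc {x | x.length ≤ 2 ^ T i} (FlP O M p h MF i l)) ∧
    ∀ i ≥ i1, ∀ m ≤ i, ∀ R : Set Oracle, Loc {x | x.length ≤ T i} R →
      (2⁻¹ : ENNReal) ^ (ax m) * randomOracle (R ∩ (Cap O M p K i m)ᶜ) ≤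
        4 * randomOracle (R ∩ FlP O M p h MF i m) + 16 * 2⁻¹ ^ (2 * ax m) * randomOracle R := by
  classical
  obtain ⟨i1, hi1, hL⟩ := loc_FlP E ok hh MF
  obtain ⟨i2, hi2, hC⟩ := plant_FlP (i0 := i0) (M := M) (p := p) E hh MF
  refine ⟨max i1 i2, le_trans hi1 (le_max_left _ _),
    fun i hi => hL i (le_trans (le_max_left _ _) hi), ?_⟩
  intro i hi m hm R hR
  have hi' : i1 ≤ i := le_trans (le_max_left _ _) hi
  have hi'' : i2 ≤ i := le_trans (le_max_right _ _) hi
  have hFl : MeasurableSet (FlP O M p h MF i m) := measurableSet_of_loc (finite_length_le _)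
    (hL i hi' m hm)
  have hRm : MeasurableSet R := measurableSet_of_loc (finite_length_le _) hR
  have h1 := Pool.Agent.J4H98.NPP.t_PL (ℕ × List Bool) (Finset.range 2 ×ˢ wds (T i))
    (fun κ => spots (T i + ax m) κ) (T i + ax m)
    (2 ^ T i / 4) (R ∩ (Cap O M p K i m)ᶜ) (R ∩ FlP O M p h MF i m) (hRm.inter hFl) ?_ ?_
  · refine arith2 (two_le_T ok (hi2.trans hi'')) (h1.trans ?_)
    gcongr
    have h2 := (Pool.Agent.J4H45.NPP.t_UP (T i) (ax m) R (FlP O M p h MF i m) hR hFl).1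
    rw [Finset.sum_product]
    refine le_of_eq_of_le ?_ h2
    refine Finset.sum_congr rfl fun c _ => Finset.sum_congr rfl fun w _ => ?_
    congr 2
    ext A
    exact ones_iff _ _ _
  · intro κ _
    exact card_spots_le _ _
  · rintro A ⟨hA, hCp⟩
    obtain ⟨c, hc, I', hI', hcard, hp⟩ := hC i hi'' m A hCp
    refine ⟨I'.image (fun w => (c, w)), ?_, ?_, ?_⟩
    · intro κ hκ
      obtain ⟨w, hw, rfl⟩ := Finset.mem_image.1 hκ
      exact Finset.mem_product.2 ⟨Finset.mem_range.2 hc, hI' hw⟩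
    · rw [Finset.card_image_of_injective _ (fun w w' h => (Prod.ext_iff.1 h).2)]
      omega
    · intro κ hκ
      obtain ⟨w, hw, rfl⟩ := Finset.mem_image.1 hκ
      exact ⟨(plant_mem_iff hR (lt_length_spots (mem_wds.1 (hI' hw))) A).2 hA, hp w hw⟩

end

end Pool.Agent.J4H25.NPP
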