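import Pool.Agent.J4H25.NPP.Ex

set_option autoImplicit false

/-!
# No complete disjoint NP-pair relative to a random oracle: the assembly
-/

namespace Pool.Agent.J4H25.NPP

open MeasureTheory Filter Pool.Agent.NPC Pool.Agent.H628R3.RO Pool.Agent.J4H63.ESY Pool.Agent.J4H45.OPT
open Pool.Agent.J4H45.EXP (T wds T_strictMono le_T T_pos two_pow_T_le two_pow_T_lt mem_wds card_wds)

section

variable {O : Oracle → Oracle} (E : Emb2 O) {M : ℕ → Alg} {p : ℕ → Polynomial ℕ} {K i0 : ℕ}
  (ok : Ok M p K i0)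

theorem le_two_pow_T (i : ℕ) : T i ≤ 2 ^ T i := Nat.lt_two_pow_self.le

include E ok in
theorem meas_At {i : ℕ} {S : ℕ → Set Oracle}
    (hS : ∀ l ≤ i, Loc {x | x.length ≤ 2 ^ T i} (S l)) : MeasurableSet (At O M p K i0 i S) :=
  measurableSet_of_loc (finite_length_le (2 ^ T i)) (loc_at E ok (le_two_pow_T i) hS)

include E ok in
theorem loc_Er' {i : ℕ} (hi : i0 ≤ i) : Loc {x | x.length ≤ 2 ^ T i} (Er O M p K i) :=
  (Pool.Agent.J4H98.NPP.t_LOC O E M p K i0 ok).1 i hi

include E ok in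
theorem loc_Cap' {i : ℕ} (hi : i0 ≤ i) (l : ℕ) :
    Loc {x | x.length ≤ 2 ^ T i} (Cap O M p K i l) :=
  (Pool.Agent.J4H98.NPP.t_LOC O E M p K i0 ok).2.1 i hi l

include E ok in
theorem loc_lv' (i l : ℕ) : Loc {x | x.length ≤ T i} {A | lv O M p K i0 A i = l} :=
  (Pool.Agent.J4H98.NPP.t_LOC O E M p K i0 ok).2.2.1 i l

include E ok in
theorem key_engine {h : ℕ → List Bool → List Bool} (hh : Short K h) (MF : Alg) (N : ℕ)
    {c c' : ℕ} (hc : c < 2) (hc' : c' < 2) :
    ∀ᵐ A ∂randomOracle, (∀ k, A ∉ Er O M p K (i0 + k)) →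
    (∀ᶠ k in atTop, A ∉ At O M p K i0 (i0 + k) (fun l => Tw c c' (i0 + k) l)) ∧
    ∃ k ≥ N, A ∈ At O M p K i0 (i0 + k) (fun l => FlP O M p h MF (i0 + k) l) := by
  obtain ⟨i1, hi1, hL, hb⟩ := fail_boundP E ok hh MF
  have hFll : ∀ k ≥ i1 + N, Loc {x | x.length ≤ 2 ^ T (i0 + k)}
      (At O M p K i0 (i0 + k) (fun l => FlP O M p h MF (i0 + k) l)) :=
    fun k hk => loc_at E ok (le_two_pow_T _) fun l hl => hL _ (by omega) l hl
  have key := Pool.Agent.J4H19.NPP.t_ENG Oracle randomOracle ax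
    (fun k A => lv O M p K i0 A (i0 + k)) (fun k => Er O M p K (i0 + k))
    (fun k => At O M p K i0 (i0 + k) (fun l => Tw c c' (i0 + k) l))
    (fun k => At O M p K i0 (i0 + k) (fun l => Cap O M p K (i0 + k) l))
    (fun k m => measurableSet_of_loc (finite_length_le (T (i0 + k))) (loc_lv' E ok (i0 + k) m))
    (fun k => measurableSet_of_loc (finite_length_le (2 ^ T (i0 + k)))
      (loc_Er' E ok (by omega)))
    (fun k => meas_At E ok fun l hl => loc_Tw ok (by omega) hl hc hc')
    (fun k => meas_At E ok fun l _ => loc_Cap' E ok (by omega) l)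
    (fun A => lv_eq_zero' A (by omega))
    (fun k A hA => by
      have h := mem_At O M p K i0 |>.1 hA
      rw [← add_assoc]
      exact lv_succ_of_cap (by omega) h)
    (fun k A hA => by
      have h : A ∉ Cap O M p K (i0 + k) (lv O M p K i0 A (i0 + k)) :=
        fun h' => hA (mem_At O M p K i0 |>.2 h')
      rw [← add_assoc]
      exact lv_succ_of_not_cap (by omega) h)
    (fun m => (Pool.Agent.J4H19.NPP.t_AF.2.2 m).1) Pool.Agent.J4H19.NPP.t_AF.1
    Pool.Agent.J4H19.NPP.t_AF.2.1 ?_ ?_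
  · obtain ⟨k1, k2⟩ := key
    have h3 := k2 (fun k => At O M p K i0 (i0 + k) (fun l => FlP O M p h MF (i0 + k) l)) (i1 + N)
      (fun k hk => measurableSet_of_loc (finite_length_le (2 ^ T (i0 + k))) (hFll k hk)) ?_
    · filter_upwards [k1, h3] with A hA hA' hE
      obtain ⟨k, hk, h4⟩ := hA' hE
      exact ⟨hA hE, k, by omega, h4⟩
    · intro k hk m
      have hR : ∀ A ∈ {A | ∀ j < k, A ∉ Er O M p K (i0 + j)} ∩
          {A | ∀ j < k, i1 + N ≤ j → A ∉ At O M p K i0 (i0 + j) (fun l => FlP O M p h MF (i0 + j) l)} ∩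
          {A | lv O M p K i0 A (i0 + k) = m}, lv O M p K i0 A (i0 + k) = m := fun A hA => hA.2
      by_cases hm : m ≤ i0 + k
      · have hG : Loc {x | x.length ≤ T (i0 + k)}
            {A | ∀ j < k, i1 + N ≤ j → A ∉ At O M p K i0 (i0 + j)
              (fun l => FlP O M p h MF (i0 + j) l)} := by
          intro A A' hA
          refine forall₃_congr fun j hj hj' => not_congr ?_
          refine hFll j hj' A A' fun x hx => hA x ?_
          have h3 := two_pow_T_le_T (i := i0 + k) (j := i0 + j) (by omega)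
          simp only [Set.mem_ofPred_eq] at hx ⊢
          omega
        have h4 := hb (i0 + k) (by omega) m hm _
          (loc_inter (loc_inter (loc_Dk E ok k) hG) (loc_lv' E ok (i0 + k) m))
        rw [inter_At_compl O M p K i0 hR, inter_At O M p K i0 hR]
        exact h4
      · have e : {A | ∀ j < k, A ∉ Er O M p K (i0 + j)} ∩
          {A | ∀ j < k, i1 + N ≤ j → A ∉ At O M p K i0 (i0 + j) (fun l => FlP O M p h MF (i0 + j) l)} ∩
          {A | lv O M p K i0 A (i0 + k) = m} = ∅ := by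
          rw [Set.eq_empty_iff_forall_notMem]
          intro A hA
          have h5 := hR A hA
          have := lv_le' (O := O) (M := M) (p := p) (K := K) (i0 := i0) A (i0 + k)
          omega
        rw [e]
        simp
  · intro k m
    have hR : ∀ A ∈ {A | ∀ j < k, A ∉ Er O M p K (i0 + j)} ∩
        {A | lv O M p K i0 A (i0 + k) = m}, lv O M p K i0 A (i0 + k) = m := fun A hA => hA.2
    have h1 := cap_bound E ok (i := i0 + k) (by omega) m
      (loc_inter (loc_Dk E ok k) (loc_lv' E ok (i0 + k) m))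
    rw [inter_At O M p K i0 hR]
    exact h1
  · intro k m
    have hR : ∀ A ∈ {A | ∀ j < k, A ∉ Er O M p K (i0 + j)} ∩
        {A | lv O M p K i0 A (i0 + k) = m}, lv O M p K i0 A (i0 + k) = m := fun A hA => hA.2
    have h1 := two_bound c c' (i0 + k) m
      (loc_inter (loc_Dk E ok k) (loc_lv' E ok (i0 + k) m))
    rw [inter_At O M p K i0 hR]
    exact h1

include E ok in
theorem ae_fail {h : ℕ → List Bool → List Bool} (hh : Short K h) :
    ∀ᵐ A ∂randomOracle, ∀ MF : Alg, ∀ N c c' : ℕ, c < 2 → c' < 2 →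
      (∀ k, A ∉ Er O M p K (i0 + k)) →
      (∀ᶠ k in atTop, A ∉ At O M p K i0 (i0 + k) (fun l => Tw c c' (i0 + k) l)) ∧
      ∃ k ≥ N, A ∈ At O M p K i0 (i0 + k) (fun l => FlP O M p h MF (i0 + k) l) := by
  rw [ae_all_iff]
  intro MF
  rw [ae_all_iff]
  intro N
  rw [ae_all_iff]
  intro c
  rw [ae_all_iff]
  intro c'
  by_cases hc : c < 2
  · by_cases hc' : c' < 2
    · filter_upwards [key_engine E ok hh MF N hc hc'] with A hA _ _
      exact hA
    · exact Filter.Eventually.of_forall fun A _ h => absurd h hc'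
  · exact Filter.Eventually.of_forall fun A h => absurd h hc

include E ok in
/-- the conclusion for given algorithms -/
theorem ae_main : ∀ᵐ A ∂randomOracle, (∀ i ≥ i0, A ∉ Er O M p K i) →
    (∀ᶠ i in atTop, ∀ c < 2, ∀ c' < 2, A ∉ Tw c c' i (lv O M p K i0 A i)) ∧
    (∀ MF : Alg, ∀ N : ℕ, ∃ i ≥ N,
      A ∈ FlP O M p (fun _ q => q) MF i (lv O M p K i0 A i)) ∧
    ∀ MF : Alg, ∀ N : ℕ, ∃ i ≥ N,
      A ∈ FlP O M p (padE (4 * K)) MF i (lv O M p K i0 A i) := by
  filter_upwards [ae_fail E ok (short_id K), ae_fail E ok (short_pad ok.pos)] with A hA hB hE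
  have hE' : ∀ k, A ∉ Er O M p K (i0 + k) := fun k => hE _ (by omega)
  have h3 : ∀ c c' : ℕ, c < 2 → c' < 2 →
      ∀ᶠ i in atTop, A ∉ Tw c c' i (lv O M p K i0 A i) := by
    intro c c' hc hc'
    obtain ⟨N, hN⟩ := eventually_atTop.1 (hA (M 0) 0 c c' hc hc' hE').1
    refine eventually_atTop.2 ⟨i0 + N, fun i hi => ?_⟩
    obtain ⟨k, rfl⟩ : ∃ k, i = i0 + k := ⟨i - i0, by omega⟩
    intro h1
    exact hN k (by omega) ((mem_At O M p K i0).2 h1)
  refine ⟨?_, fun MF N => ?_, fun MF N => ?_⟩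
  · filter_upwards [h3 0 0 (by norm_num) (by norm_num), h3 0 1 (by norm_num) (by norm_num),
      h3 1 0 (by norm_num) (by norm_num), h3 1 1 (by norm_num) (by norm_num)] with i a b d e
    intro c hc c' hc'
    interval_cases c <;> interval_cases c' <;> assumption
  · obtain ⟨k, hk, h⟩ := (hA MF N 0 0 (by norm_num) (by norm_num) hE').2
    exact ⟨i0 + k, by omega, (mem_At O M p K i0).1 h⟩
  · obtain ⟨k, hk, h⟩ := (hB MF N 0 0 (by norm_num) (by norm_num) hE').2
    exact ⟨i0 + k, by omega, (mem_At O M p K i0).1 h⟩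

end

/-! ### The theorem -/

/-- For every disjoint pair of `NP` sets (relative to `B`) there is a disjoint pair of nonempty
tally `UP` sets such that every polynomial-time function fails to reduce it to the given pair, on
infinitely many inputs. -/
def NoHardPair (B : Oracle) : Prop :=
  ∀ C D : Set (List Bool), IsPair (IsNP B) C D →
    ∃ X Y : Set (List Bool), IsPair (IsUP B) X Y ∧ X.Nonempty ∧ Y.Nonempty ∧
      (∀ x, x ∈ X ∨ x ∈ Y → ∃ n, x = List.replicate n false) ∧
      ∀ F : List Bool → List Bool, IsFP B F → ∀ N : ℕ, ∃ x : List Bool, N ≤ x.length ∧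
        (x ∈ X ∧ F x ∉ C ∨ x ∈ Y ∧ F x ∉ D)

/-- The pair `(X, Y)` of the theorem; reductions with padding of length `2 ^ (|x| / k)` fail as
well. -/
def Core (B : Oracle) : Prop :=
  ∀ C D : Set (List Bool), IsPair (IsNP B) C D →
    ∃ X Y : Set (List Bool), IsPair (IsUP B) X Y ∧ X.Nonempty ∧ Y.Nonempty ∧
      (∀ x, x ∈ X ∨ x ∈ Y → ∃ n, x = List.replicate n false) ∧
      (∀ F : List Bool → List Bool, IsFP B F → ∀ N : ℕ, ∃ x : List Bool, N ≤ x.length ∧
        (x ∈ X ∧ F x ∉ C ∨ x ∈ Y ∧ F x ∉ D)) ∧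
      ∃ k ≥ 1, ∀ F : List Bool → List Bool, IsFP B F → ∀ N : ℕ, ∃ x : List Bool, N ≤ x.length ∧
        (x ∈ X ∧ padE k x.length (F x) ∉ C ∨ x ∈ Y ∧ padE k x.length (F x) ∉ D)

theorem Core.noHardPair {B : Oracle} (h : Core B) : NoHardPair B := by
  intro C D hCD
  obtain ⟨X, Y, h1, h2, h3, h4, h5, -⟩ := h C D hCD
  exact ⟨X, Y, h1, h2, h3, h4, h5⟩

theorem NoHardPair.no_complete {B : Oracle} (h : NoHardPair B) :
    ¬ ∃ C D : Set (List Bool), IsPair (IsNP B) C D ∧
      ∀ X Y : Set (List Bool), IsPair (IsNP B) X Y → RedPair B X Y C D := by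
  rintro ⟨C, D, hCD, hr⟩
  obtain ⟨X, Y, hXY, -, -, -, hF⟩ := h C D hCD
  obtain ⟨F, hF1, hX, hY⟩ := hr X Y ⟨IsUP.isNP hXY.1, IsUP.isNP hXY.2.1, hXY.2.2⟩
  obtain ⟨x, -, hx | hx⟩ := hF F hF1 0
  · exact hx.2 (hX x hx.1)
  · exact hx.2 (hY x hx.1)

instance countable_poly : Countable (Polynomial ℕ) := by
  have : Function.Injective (fun p : Polynomial ℕ => (p.toFinsupp.coeff : ℕ →₀ ℕ)) := by
    intro p q h
    ext n
    exact DFunLike.congr_fun h n
  exact this.countable

/-- the two algorithms as a sequence -/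
def two {α : Type} (a b : α) : ℕ → α := fun c => if c = 0 then a else b

theorem main {O : Oracle → Oracle} (E : Emb2 O) : ∀ᵐ A ∂randomOracle, Core (O A) := by
  have hex : ∀ (M : ℕ → Alg) (p : ℕ → Polynomial ℕ), ∃ K i0, Ok M p K i0 :=
    Pool.Agent.J4H98.NPP.t_OK
  choose K i0 ok using hex
  have h1 : ∀ᵐ A ∂randomOracle, ∀ (M0 M1 : Alg) (p0 p1 : Polynomial ℕ),
      (∀ i ≥ i0 (two M0 M1) (two p0 p1),
        A ∉ Er O (two M0 M1) (two p0 p1) (K (two M0 M1) (two p0 p1)) i) →
      (∀ᶠ i in atTop, ∀ c < 2, ∀ c' < 2, A ∉ Tw c c' i (lv O (two M0 M1) (two p0 p1)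
        (K (two M0 M1) (two p0 p1)) (i0 (two M0 M1) (two p0 p1)) A i)) ∧
      (∀ MF : Alg, ∀ N : ℕ, ∃ i ≥ N, A ∈ FlP O (two M0 M1) (two p0 p1) (fun _ q => q) MF i
        (lv O (two M0 M1) (two p0 p1) (K (two M0 M1) (two p0 p1))
          (i0 (two M0 M1) (two p0 p1)) A i)) ∧
      ∀ MF : Alg, ∀ N : ℕ, ∃ i ≥ N, A ∈ FlP O (two M0 M1) (two p0 p1)
        (padE (4 * K (two M0 M1) (two p0 p1))) MF i
        (lv O (two M0 M1) (two p0 p1) (K (two M0 M1) (two p0 p1))
          (i0 (two M0 M1) (two p0 p1)) A i) := by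
    rw [ae_all_iff]
    intro M0
    rw [ae_all_iff]
    intro M1
    rw [ae_all_iff]
    intro p0
    rw [ae_all_iff]
    intro p1
    exact ae_main E (ok (two M0 M1) (two p0 p1))
  filter_upwards [h1] with A hA
  rintro C D ⟨⟨V0, p0, ⟨M0, hM0⟩, hC⟩, ⟨V1, p1, ⟨M1, hM1⟩, hD⟩, hdis⟩
  have hA' := hA M0 M1 p0 p1
  have ok' := ok (two M0 M1) (two p0 p1)
  have hm0 : ∀ q, Mem (two M0 M1 0) (two p0 p1 0) (O A) q ↔ q ∈ C := by
    intro q
    rw [hC q]
    unfold Mem two
    simp only [if_true]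
    refine exists_congr fun u => and_congr_right fun _ => ?_
    rw [hM0, Option.some.injEq]
  have hm1 : ∀ q, Mem (two M0 M1 1) (two p0 p1 1) (O A) q ↔ q ∈ D := by
    intro q
    rw [hD q]
    unfold Mem two
    simp only [one_ne_zero, if_false]
    refine exists_congr fun u => and_congr_right fun _ => ?_
    rw [hM1, Option.some.injEq]
  generalize two M0 M1 = M at *
  generalize two p0 p1 = p at *
  generalize K M p = K' at *
  generalize i0 M p = i0' at *
  have hE : ∀ i ≥ i0', A ∉ Er O M p K' i := by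
    rintro i - ⟨q, -, h0, h1⟩
    exact hdis q ⟨(hm0 q).1 h0, (hm1 q).1 h1⟩
  obtain ⟨hev, hfl, hflp⟩ := hA' hE
  obtain ⟨N1, hN1⟩ := eventually_atTop.1 hev
  obtain ⟨i1, h1a, h1b, h1c⟩ : ∃ i1, N1 ≤ i1 ∧ i0' ≤ i1 ∧ 5 ≤ i1 :=
    ⟨N1 + i0' + 5, by omega, by omega, by omega⟩
  have hlen : ∀ c x, x ∈ Lg O M p K' i0' i1 A c → 5 ≤ x.length := by
    rintro c x ⟨i, hi, rfl, -⟩
    rw [List.length_replicate]
    have := le_T i
    omega
  have hX := isUP_Lg E ok' h1b A 0 fun i hi => hN1 i (by omega) 0 (by norm_num) 0 (by norm_num)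
  have hY := isUP_Lg E ok' h1b A 1 fun i hi => hN1 i (by omega) 1 (by norm_num) 1 (by norm_num)
  refine ⟨insert (List.replicate 3 false) (Lg O M p K' i0' i1 A 0),
    insert (List.replicate 4 false) (Lg O M p K' i0' i1 A 1),
    ⟨IsUP.insert hX _, IsUP.insert hY _, ?_⟩, Set.insert_nonempty _ _, Set.insert_nonempty _ _,
    ?_, ?_, 4 * K', by have := ok'.pos; omega, ?_⟩
  · rintro x ⟨h2, h3⟩
    rw [Set.mem_insert_iff] at h2 h3
    rcases h2 with h2 | h2
    · rcases h3 with h3 | h3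
      · rw [h2] at h3
        exact absurd (congrArg List.length h3) (by simp)
      · have := hlen 1 x h3
        rw [h2, List.length_replicate] at this
        omega
    · rcases h3 with h3 | h3
      · have := hlen 0 x h2
        rw [h3, List.length_replicate] at this
        omega
      · obtain ⟨i, hi, hx, w, hw, hh⟩ := h2
        obtain ⟨i', hi', hx', w', hw', hh'⟩ := h3
        have hii : i' = i := by
          apply T_strictMono.injective
          have e1 := congrArg List.length hx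
          have e2 := congrArg List.length hx'
          rw [List.length_replicate] at e1 e2
          omega
        subst hii
        exact hN1 i' (by omega) 0 (by norm_num) 1 (by norm_num)
          ⟨w, w', hw, hw', fun h => absurd (Prod.ext_iff.1 h).1 (by norm_num), hh, hh'⟩
  · rintro x (h2 | h2)
    · rcases Set.mem_insert_iff.1 h2 with h3 | ⟨i, -, h3, -⟩
      · exact ⟨3, h3⟩
      · exact ⟨_, h3⟩
    · rcases Set.mem_insert_iff.1 h2 with h3 | ⟨i, -, h3, -⟩
      · exact ⟨4, h3⟩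
      · exact ⟨_, h3⟩
  · rintro F ⟨MF, hMF⟩ N
    obtain ⟨i, hi, c, hc, hH, hn⟩ := hfl MF (i1 + N)
    have hq : qF O MF A i = F (List.replicate (T i) false) := by
      unfold qF
      rw [hMF]
      rfl
    rw [hq] at hn
    refine ⟨List.replicate (T i) false, ?_, ?_⟩
    · rw [List.length_replicate]
      have := le_T i
      omega
    · interval_cases c
      · exact Or.inl ⟨Set.mem_insert_of_mem _ ⟨i, by omega, rfl, hH⟩,
          fun h => hn ((hm0 _).2 h)⟩
      · exact Or.inr ⟨Set.mem_insert_of_mem _ ⟨i, by omega, rfl, hH⟩,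
          fun h => hn ((hm1 _).2 h)⟩
  · rintro F ⟨MF, hMF⟩ N
    obtain ⟨i, hi, c, hc, hH, hn⟩ := hflp MF (i1 + N)
    have hq : qF O MF A i = F (List.replicate (T i) false) := by
      unfold qF
      rw [hMF]
      rfl
    rw [hq] at hn
    refine ⟨List.replicate (T i) false, ?_, ?_⟩
    · rw [List.length_replicate]
      have := le_T i
      omega
    · rw [List.length_replicate]
      interval_cases c
      · exact Or.inl ⟨Set.mem_insert_of_mem _ ⟨i, by omega, rfl, hH⟩,
          fun h => hn ((hm0 _).2 h)⟩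
      · exact Or.inr ⟨Set.mem_insert_of_mem _ ⟨i, by omega, rfl, hH⟩,
          fun h => hn ((hm1 _).2 h)⟩

/-- the random oracle alone -/
noncomputable def embId2 : Emb2 (fun A => A) :=
  { embId with indep := fun q h _ _ => absurd rfl (h q) }

/-- the random oracle and a fixed oracle -/
noncomputable def embJoin2 (E : Oracle) : Emb2 (fun A => join A E) :=
  { embJoin E with
    indep := by
      intro q h A A'
      rcases q with _ | ⟨b, q⟩
      · rfl
      · cases b with
        | false => exact absurd rfl (h q)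
        | true => rfl }

end Pool.Agent.J4H25.NPP
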