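import Pool.Agent.J4H25.NPP.Np
import Pool.Agent.J4H98.NPP.Pl
import Pool.Agent.J4H98.NPP.Ok
import Pool.Agent.J4H98.NPP.Loc
import Pool.Agent.J4H81.NPP.C1
import Pool.Agent.J4H81.NPP.C2
import Pool.Agent.J4H19.NPP.Eng
import Pool.Agent.J4H45.NPP.Up

set_option autoImplicit false

/-!
# No complete disjoint NP-pair relative to a random oracle: the bounds of the assembly
-/

namespace Pool.Agent.J4H25.NPP

open MeasureTheory Filter Pool.Agent.NPC Pool.Agent.H628R3.RO Pool.Agent.J4H63.ESY Pool.Agent.J4H45.OPT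
open Pool.Agent.J4H45.EXP (T wds T_strictMono le_T T_pos two_pow_T_le two_pow_T_lt mem_wds card_wds)

/-! ### Planting far away -/

theorem plant_mem_iff {n : ℕ} {R : Set Oracle} (hR : Loc {x | x.length ≤ n} R)
    {J : Finset (List Bool)} (hJ : ∀ x ∈ J, n < x.length) (A : Oracle) :
    plant J A ∈ R ↔ A ∈ R := by
  refine hR _ _ fun x hx => ?_
  unfold plant
  rw [if_neg]
  intro h
  have h1 := hJ x h
  simp only [Set.mem_ofPred_eq] at hx
  omega

theorem lt_length_spots {n m c : ℕ} {w : List Bool} (hw : w.length = n) :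
    ∀ x ∈ spots m (c, w), n < x.length := by
  intro x hx
  unfold spots at hx
  obtain ⟨b, -, rfl⟩ := Finset.mem_image.1 hx
  rw [length_pos]
  change n < c + b + w.length + 2
  omega

theorem card_spots_le (m : ℕ) (κ : Cand) : (spots m κ).card ≤ m := by
  unfold spots
  exact Finset.card_image_le.trans (by rw [Finset.card_range])

theorem ones_iff (m : ℕ) (κ : Cand) (A : Oracle) :
    (∀ x ∈ spots m κ, A x = true) ↔ Hit m κ A := by
  unfold spots Hit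
  simp only [Finset.mem_image, Finset.mem_range, forall_exists_index, and_imp,
    forall_apply_eq_imp_iff₂]

/-! ### Arithmetic -/

theorem arith1 {n a : ℕ} (hn : 2 ≤ n) {s x y : ENNReal}
    (h : ((4 ^ n / 8 : ℕ) : ENNReal) * s ≤ 2 ^ (2 * (n + a)) * (x + 8 * 2⁻¹ ^ (3 * a) * y)) :
    (2⁻¹ : ENNReal) ^ (2 * a) * s ≤ 8 * x + 64 * 2⁻¹ ^ (3 * a) * y := by
  obtain ⟨k, rfl⟩ : ∃ k, n = k + 2 := ⟨n - 2, by omega⟩
  have e1 : 4 ^ (k + 2) / 8 = 2 * 4 ^ k := by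
    rw [pow_add]
    omega
  rw [e1] at h
  have h4 : (4 : ENNReal) ^ k ≠ 0 := pow_ne_zero _ (by norm_num)
  have h4' : (4 : ENNReal) ^ k ≠ ⊤ := ENNReal.pow_ne_top (by norm_num)
  have e2 : (2 : ENNReal) ^ (2 * (k + 2 + a)) = 16 * 4 ^ k * 2 ^ (2 * a) := by
    rw [show 2 * (k + 2 + a) = 4 + 2 * k + 2 * a by ring, pow_add, pow_add, pow_mul 2 2 k]
    norm_num
  have e3 : (2⁻¹ : ENNReal) ^ (2 * a) * 2 ^ (2 * a) = 1 := by
    rw [← mul_pow, ENNReal.inv_mul_cancel (by norm_num) (by norm_num), one_pow]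
  have h1 : (2⁻¹ : ENNReal) ^ (2 * a) * (((2 * 4 ^ k : ℕ) : ENNReal) * s) ≤
      (2⁻¹ : ENNReal) ^ (2 * a) * (2 ^ (2 * (k + 2 + a)) * (x + 8 * 2⁻¹ ^ (3 * a) * y)) := by
    gcongr
  rw [e2] at h1
  push_cast at h1
  have h2 : (2 * 4 ^ k) * ((2⁻¹ : ENNReal) ^ (2 * a) * s) ≤
      (2 * 4 ^ k) * (8 * x + 64 * 2⁻¹ ^ (3 * a) * y) := by
    calc (2 * 4 ^ k) * ((2⁻¹ : ENNReal) ^ (2 * a) * s)
        = (2⁻¹ : ENNReal) ^ (2 * a) * (2 * 4 ^ k * s) := by ring
      _ ≤ _ := h1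
      _ = ((2⁻¹ : ENNReal) ^ (2 * a) * 2 ^ (2 * a)) * (16 * 4 ^ k) *
          (x + 8 * 2⁻¹ ^ (3 * a) * y) := by ring
      _ = (2 * 4 ^ k) * (8 * x + 64 * 2⁻¹ ^ (3 * a) * y) := by rw [e3]; ring
  exact (ENNReal.mul_le_mul_iff_right (mul_ne_zero (by norm_num) h4)
    (ENNReal.mul_ne_top (by norm_num) h4')).1 h2

theorem arith2 {n a : ℕ} (hn : 2 ≤ n) {s x y : ENNReal}
    (h : ((2 ^ n / 4 : ℕ) : ENNReal) * s ≤ 2 ^ (n + a) * (x + 4 * 2⁻¹ ^ (2 * a) * y)) :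
    (2⁻¹ : ENNReal) ^ a * s ≤ 4 * x + 16 * 2⁻¹ ^ (2 * a) * y := by
  obtain ⟨k, rfl⟩ : ∃ k, n = k + 2 := ⟨n - 2, by omega⟩
  have e1 : 2 ^ (k + 2) / 4 = 2 ^ k := by
    rw [pow_add]
    omega
  rw [e1] at h
  have h4 : (2 : ENNReal) ^ k ≠ 0 := pow_ne_zero _ (by norm_num)
  have h4' : (2 : ENNReal) ^ k ≠ ⊤ := ENNReal.pow_ne_top (by norm_num)
  have e2 : (2 : ENNReal) ^ (k + 2 + a) = 4 * 2 ^ k * 2 ^ a := by
    rw [pow_add, pow_add]
    ring
  have e3 : (2⁻¹ : ENNReal) ^ a * 2 ^ a = 1 := by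
    rw [← mul_pow, ENNReal.inv_mul_cancel (by norm_num) (by norm_num), one_pow]
  have h1 : (2⁻¹ : ENNReal) ^ a * (((2 ^ k : ℕ) : ENNReal) * s) ≤
      (2⁻¹ : ENNReal) ^ a * (2 ^ (k + 2 + a) * (x + 4 * 2⁻¹ ^ (2 * a) * y)) := by
    gcongr
  rw [e2] at h1
  push_cast at h1
  have h2 : (2 ^ k) * ((2⁻¹ : ENNReal) ^ a * s) ≤
      (2 ^ k) * (4 * x + 16 * 2⁻¹ ^ (2 * a) * y) := by
    calc (2 ^ k) * ((2⁻¹ : ENNReal) ^ a * s)
        = (2⁻¹ : ENNReal) ^ a * (2 ^ k * s) := by ring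
      _ ≤ _ := h1
      _ = ((2⁻¹ : ENNReal) ^ a * 2 ^ a) * (4 * 2 ^ k) *
          (x + 4 * 2⁻¹ ^ (2 * a) * y) := by ring
      _ = (2 ^ k) * (4 * x + 16 * 2⁻¹ ^ (2 * a) * y) := by rw [e3]; ring
  exact (ENNReal.mul_le_mul_iff_right h4 h4').1 h2

/-! ### The events along the levels -/

section

variable (O : Oracle → Oracle) (M : ℕ → Alg) (p : ℕ → Polynomial ℕ) (K i0 : ℕ)

/-- the event `S l` at the level `l` of the oracle at stage `i` -/
def At (i : ℕ) (S : ℕ → Set Oracle) : Set Oracle := {A | A ∈ S (lv O M p K i0 A i)}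

theorem mem_At {i : ℕ} {S : ℕ → Set Oracle} {A : Oracle} :
    A ∈ At O M p K i0 i S ↔ A ∈ S (lv O M p K i0 A i) := by
  unfold At
  rw [Set.mem_ofPred_eq]

theorem inter_At {i m : ℕ} {S : ℕ → Set Oracle} {R : Set Oracle}
    (hR : ∀ A ∈ R, lv O M p K i0 A i = m) : R ∩ At O M p K i0 i S = R ∩ S m := by
  ext A
  rw [Set.mem_inter_iff, Set.mem_inter_iff, mem_At]
  refine and_congr_right fun hA => ?_
  rw [hR A hA]

theorem inter_At_compl {i m : ℕ} {S : ℕ → Set Oracle} {R : Set Oracle}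
    (hR : ∀ A ∈ R, lv O M p K i0 A i = m) : R ∩ (At O M p K i0 i S)ᶜ = R ∩ (S m)ᶜ := by
  ext A
  rw [Set.mem_inter_iff, Set.mem_inter_iff, Set.mem_compl_iff, Set.mem_compl_iff, mem_At]
  refine and_congr_right fun hA => ?_
  rw [hR A hA]

end

theorem loc_mono {a b : ℕ} (h : a ≤ b) {S : Set Oracle} (hS : Loc {x | x.length ≤ a} S) :
    Loc {x | x.length ≤ b} S :=
  fun A A' hA => hS A A' fun x hx => hA x (by
    simp only [Set.mem_ofPred_eq] at hx ⊢
    omega)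

theorem loc_inter {Z : Set (List Bool)} {S S' : Set Oracle} (h : Loc Z S) (h' : Loc Z S') :
    Loc Z (S ∩ S') := fun A A' hA => and_congr (h A A' hA) (h' A A' hA)

section

variable {O : Oracle → Oracle} (E : Emb2 O) {M : ℕ → Alg} {p : ℕ → Polynomial ℕ} {K i0 : ℕ}
  (ok : Ok M p K i0)

include ok in
theorem two_le_T {i : ℕ} (hi : i0 ≤ i) : 2 ≤ T i := by
  have h := ok.spots i hi
  by_contra hcon
  have h1 : T i ≤ 1 := by omega
  have h2 : 2 ^ T i ≤ 2 ^ 1 := Nat.pow_le_pow_right (by norm_num) h1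
  omega

theorem two_pow_T_le_T {i j : ℕ} (h : j < i) : 2 ^ T j ≤ T i :=
  (two_pow_T_lt j).le.trans (T_strictMono.monotone h)

include E ok in
theorem loc_at {i r : ℕ} (hr : T i ≤ r) {S : ℕ → Set Oracle}
    (hS : ∀ l ≤ i, Loc {x | x.length ≤ r} (S l)) :
    Loc {x | x.length ≤ r} (At O M p K i0 i S) := by
  intro A A' hA
  have h1 := (Pool.Agent.J4H98.NPP.t_LOC O E M p K i0 ok).2.2.1 i (lv O M p K i0 A' i) A A'
    (fun x hx => hA x (by
      simp only [Set.mem_ofPred_eq] at hx ⊢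
      omega))
  have h2 : lv O M p K i0 A i = lv O M p K i0 A' i := h1.2 rfl
  rw [mem_At, mem_At, h2]
  exact hS _ (lv_le' A' i) A A' hA

include E ok in
theorem loc_Dk (k : ℕ) :
    Loc {x | x.length ≤ T (i0 + k)} {A | ∀ j < k, A ∉ Er O M p K (i0 + j)} := by
  intro A A' hA
  refine forall₂_congr fun j hj => not_congr ?_
  refine (Pool.Agent.J4H98.NPP.t_LOC O E M p K i0 ok).1 (i0 + j) (by omega) A A'
    fun x hx => hA x ?_
  have h3 := two_pow_T_le_T (i := i0 + k) (j := i0 + j) (by omega)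
  simp only [Set.mem_ofPred_eq] at hx ⊢
  omega

include E ok in
theorem cap_bound {i : ℕ} (hi : i0 ≤ i) (m : ℕ) {R : Set Oracle}
    (hR : Loc {x | x.length ≤ T i} R) :
    (2⁻¹ : ENNReal) ^ (2 * ax m) * randomOracle (R ∩ Cap O M p K i m) ≤
      8 * randomOracle (R ∩ Er O M p K i) + 64 * 2⁻¹ ^ (3 * ax m) * randomOracle R := by
  classical
  have hEr : MeasurableSet (Er O M p K i) := measurableSet_of_loc (finite_length_le _)
    ((Pool.Agent.J4H98.NPP.t_LOC O E M p K i0 ok).1 i hi)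
  have hRm : MeasurableSet R := measurableSet_of_loc (finite_length_le _) hR
  have h1 := Pool.Agent.J4H98.NPP.t_PL (List Bool × List Bool) (wds (T i) ×ˢ wds (T i))
    (fun t => spots (T i + ax m) (0, t.1) ∪ spots (T i + ax m) (1, t.2)) (2 * (T i + ax m))
    (4 ^ T i / 8) (R ∩ Cap O M p K i m) (R ∩ Er O M p K i) (hRm.inter hEr) ?_ ?_
  · refine arith1 (two_le_T ok hi) (h1.trans ?_)
    gcongr
    have h2 := (Pool.Agent.J4H45.NPP.t_UP (T i) (ax m) R (Er O M p K i) hR hEr).2.1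
    rw [Finset.sum_product]
    refine le_of_eq_of_le ?_ h2
    refine Finset.sum_congr rfl fun w _ => Finset.sum_congr rfl fun w' _ => ?_
    congr 2
    ext A
    simp only [Set.mem_ofPred_eq]
    rw [← ones_iff, ← ones_iff]
    constructor
    · intro h
      exact ⟨fun x hx => h x (Finset.mem_union_left _ hx),
        fun x hx => h x (Finset.mem_union_right _ hx)⟩
    · rintro ⟨h, h'⟩ x hx
      rcases Finset.mem_union.1 hx with hx | hx
      · exact h x hx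
      · exact h' x hx
  · intro t _
    refine (Finset.card_union_le _ _).trans ?_
    have e1 := card_spots_le (T i + ax m) (0, t.1)
    have e2 := card_spots_le (T i + ax m) (1, t.2)
    omega
  · rintro A ⟨hA, hC⟩
    obtain ⟨I', hI', hc, hp⟩ := Pool.Agent.J4H81.NPP.t_C1 O E M p K i0 ok i hi m A hC
    refine ⟨I', hI', by omega, fun t ht => ⟨?_, hp t ht⟩⟩
    have ht' := Finset.mem_product.1 (hI' ht)
    refine (plant_mem_iff hR ?_ A).2 hA
    intro x hx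
    rcases Finset.mem_union.1 hx with hx | hx
    · exact lt_length_spots (mem_wds.1 ht'.1) x hx
    · exact lt_length_spots (mem_wds.1 ht'.2) x hx

theorem both_bound (i m : ℕ) {R : Set Oracle} (hR : Loc {x | x.length ≤ T i} R) :
    randomOracle (R ∩ {A | A ∈ Hev 0 i m ∧ A ∈ Hev 1 i m}) ≤
      2⁻¹ ^ (2 * ax m) * randomOracle R :=
  (Pool.Agent.J4H45.NPP.t_UP (T i) (ax m) R Set.univ hR MeasurableSet.univ).2.2

include E ok in
theorem fail_bound (MF : Alg) : ∃ i1 ≥ i0, (∀ i ≥ i1, ∀ l ≤ i,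
    Loc {x | x.length ≤ 2 ^ T i} (Fl O M p MF i l)) ∧
    ∀ i ≥ i1, ∀ m ≤ i, ∀ R : Set Oracle, Loc {x | x.length ≤ T i} R →
      (2⁻¹ : ENNReal) ^ (ax m) * randomOracle (R ∩ (Cap O M p K i m)ᶜ) ≤
        4 * randomOracle (R ∩ Fl O M p MF i m) + 16 * 2⁻¹ ^ (2 * ax m) * randomOracle R := by
  classical
  obtain ⟨i1, hi1, hL⟩ := (Pool.Agent.J4H98.NPP.t_LOC O E M p K i0 ok).2.2.2.2 MF
  obtain ⟨i2, hi2, hC⟩ := Pool.Agent.J4H81.NPP.t_C2 O E M p K i0 ok MF
  refine ⟨max i1 i2, le_trans hi1 (le_max_left _ _),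
    fun i hi => hL i (le_trans (le_max_left _ _) hi), ?_⟩
  intro i hi m hm R hR
  have hi' : i1 ≤ i := le_trans (le_max_left _ _) hi
  have hi'' : i2 ≤ i := le_trans (le_max_right _ _) hi
  have hFl : MeasurableSet (Fl O M p MF i m) := measurableSet_of_loc (finite_length_le _)
    (hL i hi' m hm)
  have hRm : MeasurableSet R := measurableSet_of_loc (finite_length_le _) hR
  have h1 := Pool.Agent.J4H98.NPP.t_PL (ℕ × List Bool) (Finset.range 2 ×ˢ wds (T i))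
    (fun κ => spots (T i + ax m) κ) (T i + ax m)
    (2 ^ T i / 4) (R ∩ (Cap O M p K i m)ᶜ) (R ∩ Fl O M p MF i m) (hRm.inter hFl) ?_ ?_
  · refine arith2 (two_le_T ok (hi2.trans hi'')) (h1.trans ?_)
    gcongr
    have h2 := (Pool.Agent.J4H45.NPP.t_UP (T i) (ax m) R (Fl O M p MF i m) hR hFl).1
    rw [Finset.sum_product]
    refine le_of_eq_of_le ?_ h2
    refine Finset.sum_congr rfl fun c _ => Finset.sum_congr rfl fun w _ => ?_
    congr 2
    ext A
    exact ones_iff _ _ _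
  · intro κ _
    exact card_spots_le _ _
  · rintro A ⟨hA, hCp⟩
    obtain ⟨c, hc, I', hI', hcard, hp⟩ := hC i hi'' m A hCp
    refine ⟨I'.image (fun w => (c, w)), ?_, ?_, ?_⟩
    · intro κ hκ
      obtain ⟨w, hw, rfl⟩ := Finset.mem_image.1 hκ
      exact Finset.mem_product.2 ⟨Finset.mem_range.2 hc, hI' hw⟩
    · rw [Finset.card_image_of_injective _ (fun w w' h => (Prod.ext_iff.1 h).2)]
      omega
    · intro κ hκ
      obtain ⟨w, hw, rfl⟩ := Finset.mem_image.1 hκ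
      exact ⟨(plant_mem_iff hR (lt_length_spots (mem_wds.1 (hI' hw))) A).2 hA, hp w hw⟩

end

end Pool.Agent.J4H25.NPP
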