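import Pool.Agent.J4H25.NPP.Stm
import Pool.Agent.J4H45.EXP.Sys

set_option autoImplicit false

/-!
# Piece NP: the new sets are in `NP`
-/

namespace Pool.Agent.J4H25.NPP

open MeasureTheory Filter Pool.Agent.NPC Pool.Agent.H628R3.RO Pool.Agent.J4H63.ESY Pool.Agent.J4H45.OPT
open Pool.Agent.J4H45.EXP (T wds selL selL_map lg_T T_strictMono le_T T_pos two_pow_T_le two_pow_T_lt
  mem_wds card_wds length_lt_two_pow ofL_filter' p_selL lg_iterate_le u_lgI two_pow_lg_le p_strs_lg
  u_min foldl_le ix_le)

section

variable (g : List Bool → List Bool) (M : ℕ → Alg) (p : ℕ → Polynomial ℕ) (K i0 : ℕ)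

/-- membership by exhaustive search for a witness -/
def memL (M : Alg) (p : Polynomial ℕ) (S : List (List Bool)) (N : ℕ) (q : List Bool) : Bool :=
  (strs (lg N)).any (fun u => decide (u.length ≤ p.eval q.length) &&
    decide (M.out (ofL S) (pairBits q u) = some [true]))

/-- the words whose planting puts `q` into the set number `c` -/
def goodL (c m n : ℕ) (S : List (List Bool)) (N : ℕ) (q : List Bool) : List (List Bool) :=
  (strsEq (min n (lg N))).filter (fun w => memL (M c) (p c) ((asks m c w).map g ++ S) N q)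

/-- Is the stage captured? -/
def capL (S : List (List Bool)) (N n l : ℕ) : Bool :=
  (strs (lg N)).any (fun q => decide (K * q.length.size ≤ n) &&
    (decide ((strsEq (min n (lg N))).length ≤
      2 * (goodL g M p 0 (min (n + ax l) N) n S N q).length) &&
     decide ((strsEq (min n (lg N))).length ≤
      2 * (goodL g M p 1 (min (n + ax l) N) n S N q).length)))

/-- the level at stage `i`, for an oracle given by a list -/
def levL (S : List (List Bool)) (N i : ℕ) : ℕ :=
  (List.range (i - i0)).foldl
    (fun l k => l + (if capL g M p K S N (lg^[2 * ((i - i0) - k)] N) l = true then 0 else 1)) 0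

end

/-! ### `ax` -/

theorem size_cube_le (m : ℕ) : ((m + 1) ^ 3).size / 4 ≤ m + 1 := by
  have h1 : m + 1 < 2 ^ (m + 1) := Nat.lt_two_pow_self
  have h2 : (m + 1) ^ 3 < 2 ^ (3 * (m + 1)) := by
    calc (m + 1) ^ 3 < (2 ^ (m + 1)) ^ 3 := Nat.pow_lt_pow_left h1 (by norm_num)
      _ = 2 ^ (3 * (m + 1)) := by rw [← pow_mul, mul_comm]
  have h3 : ((m + 1) ^ 3).size ≤ 3 * (m + 1) := Nat.size_le.2 h2
  omega

theorem ax_le' (m : ℕ) : ax m ≤ m + 8 := by
  have := size_cube_le m
  unfold ax
  omega

/-! ### Correctness -/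

theorem lv_le' {O : Oracle → Oracle} {M : ℕ → Alg} {p : ℕ → Polynomial ℕ} {K i0 : ℕ} (A : Oracle) :
    ∀ i, lv O M p K i0 A i ≤ i := by
  intro i
  induction i with
  | zero => exact le_rfl
  | succ i ih =>
    rw [lv]
    split_ifs <;> omega

theorem lv_succ_of_cap {O : Oracle → Oracle} {M : ℕ → Alg} {p : ℕ → Polynomial ℕ} {K i0 : ℕ}
    {A : Oracle} {i : ℕ} (hi : i0 ≤ i) (h : A ∈ Cap O M p K i (lv O M p K i0 A i)) :
    lv O M p K i0 A (i + 1) = lv O M p K i0 A i := by
  rw [lv, if_neg (by omega), if_pos h, add_zero]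

theorem lv_succ_of_not_cap {O : Oracle → Oracle} {M : ℕ → Alg} {p : ℕ → Polynomial ℕ} {K i0 : ℕ}
    {A : Oracle} {i : ℕ} (hi : i0 ≤ i) (h : A ∉ Cap O M p K i (lv O M p K i0 A i)) :
    lv O M p K i0 A (i + 1) = lv O M p K i0 A i + 1 := by
  rw [lv, if_neg (by omega), if_neg h]

theorem lv_eq_zero' {O : Oracle → Oracle} {M : ℕ → Alg} {p : ℕ → Polynomial ℕ} {K i0 : ℕ}
    (A : Oracle) {i : ℕ} (hi : i ≤ i0) : lv O M p K i0 A i = 0 := by
  cases i with
  | zero => rfl
  | succ i => rw [lv, if_pos (by omega)]

section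

variable {O : Oracle → Oracle} (E : Emb2 O) {M : ℕ → Alg} {p : ℕ → Polynomial ℕ} {K i0 : ℕ}
  (ok : Ok M p K i0)

include E in
/-- the oracle with a candidate planted, as a list -/
theorem ofL_plant {A : Oracle} {S : List (List Bool)} {m c r : ℕ} {w : List Bool}
    (hS : ∀ x : List Bool, x.length ≤ r → ofL S x = O A x) (x : List Bool) (hx : x.length ≤ r) :
    ofL ((asks m c w).map E.g ++ S) x = O (plant (spots m (c, w)) A) x := by
  have hm : ∀ y : List Bool, y ∈ spots m (c, w) ↔ y ∈ asks m c w := by
    intro y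
    unfold spots asks
    simp only [Finset.mem_image, Finset.mem_range, List.mem_map, List.mem_range]
  have h0 : ofL ((asks m c w).map E.g ++ S) x = true ↔ x ∈ (asks m c w).map E.g ∨ ofL S x = true := by
    unfold ofL
    rw [decide_eq_true_eq, List.mem_append, decide_eq_true_eq]
  by_cases hg : ∃ z, x = E.g z
  · obtain ⟨z, rfl⟩ := hg
    rw [E.emb]
    by_cases hz : z ∈ asks m c w
    · have h1 : plant (spots m (c, w)) A z = true := by
        unfold plant
        rw [if_pos ((hm z).2 hz)]
      rw [h1]
      exact h0.2 (Or.inl (List.mem_map.2 ⟨z, hz, rfl⟩))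
    · have h1 : plant (spots m (c, w)) A z = A z := by
        unfold plant
        rw [if_neg (fun h => hz ((hm z).1 h))]
      have h2 : ∀ z', z' ∈ asks m c w → E.g z' ≠ E.g z ∨ A z = true := by
        intro z' hz'
        by_contra hcon
        push Not at hcon
        have e1 := E.emb (plant (spots m (c, w)) A) z
        have e2 := E.emb (plant (spots m (c, w)) A) z'
        rw [hcon.1, e1, h1] at e2
        apply hcon.2
        rw [e2]
        unfold plant
        rw [if_pos ((hm z').2 hz')]
      rw [h1, Bool.eq_iff_iff, h0, hS _ hx, E.emb]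
      constructor
      · rintro (h | h)
        · obtain ⟨z', hz', he⟩ := List.mem_map.1 h
          rcases h2 z' hz' with h3 | h3
          · exact absurd he h3
          · exact h3
        · exact h
      · exact fun h => Or.inr h
  · have hg' : ∀ z, x ≠ E.g z := fun z hz => hg ⟨z, hz⟩
    rw [Bool.eq_iff_iff, h0, hS _ hx, E.indep x hg' A (plant (spots m (c, w)) A)]
    constructor
    · rintro (h | h)
      · obtain ⟨z', -, he⟩ := List.mem_map.1 h
        exact absurd he.symm (hg' z')
      · exact h
    · exact fun h => Or.inr h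

include ok in
theorem memL_iff {B : Oracle} {i j : ℕ} (hj : i0 ≤ j) (hji : j < i) {S : List (List Bool)}
    (hS : ∀ x : List Bool, x.length ≤ lg (T i) → ofL S x = B x) {c : ℕ} (hc : c < 2) {q : List Bool}
    (hq : K * q.length.size ≤ T j) :
    memL (M c) (p c) S (T i) q = true ↔ Mem (M c) (p c) B q := by
  unfold memL Mem
  rw [List.any_eq_true]
  have h1 := two_pow_T_le hji
  have hcg : ∀ u : List Bool, u.length ≤ (p c).eval q.length →
      (M c).out (ofL S) (pairBits q u) = (M c).out B (pairBits q u) :=
    fun u hu => ok.congr j hj q hq c hc u hu _ _ fun x hx => hS x (hx.trans h1)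
  constructor
  · rintro ⟨u, -, hu⟩
    rw [Bool.and_eq_true, decide_eq_true_eq, decide_eq_true_eq] at hu
    exact ⟨u, hu.1, by rw [← hcg u hu.1, hu.2]⟩
  · rintro ⟨u, hu, ho⟩
    refine ⟨u, mem_strs.2 ((hu.trans (ok.len j hj q hq c hc)).trans h1), ?_⟩
    rw [Bool.and_eq_true, decide_eq_true_eq, decide_eq_true_eq]
    exact ⟨hu, by rw [hcg u hu, ho]⟩

include ok in
theorem card_good {A : Oracle} {i j : ℕ} (hj : i0 ≤ j) (hji : j < i) {S : List (List Bool)}
    (hS : ∀ x : List Bool, x.length ≤ lg (T i) → ofL S x = O A x) {c : ℕ} (hc : c < 2)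
    {q : List Bool} (hq : K * q.length.size ≤ T j) (m : ℕ) :
    (goodL E.g M p c m (T j) S (T i) q).length = (good O M p A c (T j) m q).card := by
  classical
  have h0 : min (T j) (lg (T i)) = T j := by
    refine min_eq_left ?_
    exact (Nat.lt_two_pow_self).le.trans (two_pow_T_le hji)
  have h1 : (goodL E.g M p c m (T j) S (T i) q).toFinset = good O M p A c (T j) m q := by
    ext w
    unfold goodL good
    rw [h0, List.mem_toFinset, List.mem_filter, Finset.mem_filter, mem_wds, mem_strsEq]
    refine and_congr_right fun hw => ?_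
    exact memL_iff ok hj hji (fun x hx => ofL_plant E hS x hx) hc hq
  rw [← h1, List.toFinset_card_of_nodup]
  exact (nodup_strsEq _).filter _

include ok in
theorem capL_iff {A : Oracle} {i j l : ℕ} (hj : i0 ≤ j) (hji : j < i) (hl : l ≤ j)
    {S : List (List Bool)} (hS : ∀ x : List Bool, x.length ≤ lg (T i) → ofL S x = O A x) :
    capL E.g M p K S (T i) (T j) l = true ↔ A ∈ Cap O M p K j l := by
  have h1 := two_pow_T_le hji
  have h0 : min (T j) (lg (T i)) = T j := min_eq_left ((Nat.lt_two_pow_self).le.trans h1)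
  have hm : min (T j + ax l) (T i) = T j + ax l := by
    refine min_eq_left ?_
    have e1 := ax_le' l
    have e2 := le_T j
    have e3 := ok.spots j hj
    have e4 := lg_le (T i)
    omega
  unfold capL
  rw [hm, h0, length_strsEq, List.any_eq_true]
  constructor
  · rintro ⟨q, -, hq⟩
    rw [Bool.and_eq_true, Bool.and_eq_true, decide_eq_true_eq, decide_eq_true_eq,
      decide_eq_true_eq] at hq
    obtain ⟨hq1, hq2, hq3⟩ := hq
    rw [card_good E ok hj hji hS (by norm_num) hq1] at hq2
    rw [card_good E ok hj hji hS (by norm_num) hq1] at hq3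
    exact ⟨q, hq1, hq2, hq3⟩
  · rintro ⟨q, hq1, hq2, hq3⟩
    refine ⟨q, mem_strs.2 ((length_lt_two_pow ok.pos hq1).le.trans h1), ?_⟩
    rw [Bool.and_eq_true, Bool.and_eq_true, decide_eq_true_eq, decide_eq_true_eq,
      decide_eq_true_eq, card_good E ok hj hji hS (by norm_num) hq1,
      card_good E ok hj hji hS (by norm_num) hq1]
    exact ⟨hq1, hq2, hq3⟩

include ok in
theorem levL_eq {A : Oracle} {i : ℕ} (hi : i0 ≤ i) {S : List (List Bool)}
    (hS : ∀ x : List Bool, x.length ≤ lg (T i) → ofL S x = O A x) :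
    levL E.g M p K i0 S (T i) i = lv O M p K i0 A i := by
  have key : ∀ k ≤ i - i0, (List.range k).foldl
      (fun l k => l + (if capL E.g M p K S (T i) (lg^[2 * ((i - i0) - k)] (T i)) l = true
        then 0 else 1)) 0 = lv O M p K i0 A (i0 + k) := by
    intro k
    induction k with
    | zero =>
      intro _
      rw [lv_eq_zero' A (by omega)]
      rfl
    | succ k ih =>
      intro hk
      rw [List.range_succ, List.foldl_append, ih (by omega)]
      simp only [List.foldl_cons, List.foldl_nil]
      have h1 : lg^[2 * ((i - i0) - k)] (T i) = T (i0 + k) := by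
        have h2 := lg_T (i0 + k) ((i - i0) - k)
        have h3 : i0 + k + ((i - i0) - k) = i := by omega
        rwa [h3] at h2
      rw [h1]
      have h4 := capL_iff E ok (A := A) (i := i) (j := i0 + k) (l := lv O M p K i0 A (i0 + k))
        (by omega) (by omega) (lv_le' A _) hS
      by_cases h5 : A ∈ Cap O M p K (i0 + k) (lv O M p K i0 A (i0 + k))
      · rw [if_pos (h4.2 h5), ← add_assoc, lv_succ_of_cap (by omega) h5]
        rfl
      · rw [if_neg (fun h => h5 (h4.1 h)), ← add_assoc, lv_succ_of_not_cap (by omega) h5]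
  unfold levL
  rw [key _ le_rfl]
  congr 1
  omega

end

/-! ### Polynomial time -/

section

variable {α : Type} [TEnc α]

theorem take_eq_zip {β : Type} (l : List β) (n : ℕ) :
    (l.zip (List.replicate n ())).map (fun p => p.1) = l.take n := by
  induction l generalizing n with
  | nil => simp
  | cons a l ih =>
    cases n with
    | zero => simp
    | succ n =>
      rw [List.replicate_succ, List.zip_cons_cons, List.map_cons, ih, List.take_succ_cons]

theorem p_take' {β : Type} [TEnc β] {v : α → List β} {n : α → ℕ} (hv : Poly v) (hn : UPoly n) :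
    Poly (fun a => (v a).take (n a)) := by
  refine (NPC.Poly.map (F := fun _ (p : β × Unit) => p.1) (Poly.zip hv hn) ?_).congr
    fun a => take_eq_zip _ _
  exact Poly.fst (Poly.snd Poly.id)

theorem p_replicate {n : α → ℕ} (hn : UPoly n) : Poly (fun a => List.replicate (n a) false) := by
  have h1 : Poly (fun a => (List.replicate (n a) ()).map (fun _ => false)) :=
    NPC.Poly.map (F := fun _ _ => false) hn (NPC.Poly.const false)
  exact h1.congr fun a => by simp

theorem u_ax {m : α → ℕ} (hm : Poly m) : UPoly (fun a => ax (m a)) := by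
  have h1 : Poly (fun a => m a + 1) := Poly.succ hm
  have h2 : Poly (fun a => (m a + 1) ^ 3) :=
    (Poly.mul h1 (Poly.mul h1 h1)).congr fun a => by ring
  have h3 : UPoly (fun a => ((m a + 1) ^ 3).size) := u_size h2
  have h4 : UPoly (fun a => ((m a + 1) ^ 3).size / 4) :=
    UPoly.of_le (Poly.div h3.toPoly (NPC.Poly.const 4)) h3 fun _ => Nat.div_le_self _ _
  exact UPoly.add (UPoly.const 7) h4

theorem p_memL (M : Alg) (p : Polynomial ℕ) {S : α → List (List Bool)} {N : α → ℕ}
    {q : α → List Bool} (hS : Poly S) (hN : UPoly N) (hq : Poly q) :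
    Poly (fun a => memL M p (S a) (N a) (q a)) := by
  have h1 : Poly (fun p : α × List Bool => p.1) := Poly.fst Poly.id
  have h2 : Poly (fun p : α × List Bool => p.2) := Poly.snd Poly.id
  refine NPC.Poly.any (p := fun a u => decide (u.length ≤ p.eval (q a).length) &&
    decide (M.out (ofL (S a)) (pairBits (q a) u) = some [true])) (p_strs_lg hN) (Poly.and ?_ ?_)
  · exact Poly.decide_le (Poly.length h2) ((UPoly.length (hq.comp h1)).eval p).toPoly
  · exact Poly.decide_eq (p_out M (hS.comp h1) (H622R2.poly_pairBits (hq.comp h1) h2))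
      (NPC.Poly.const _)

theorem u_minlg {n N : α → ℕ} (hn : Poly n) (hN : UPoly N) :
    UPoly (fun a => min (n a) (lg (N a))) :=
  UPoly.of_le (Poly.min hn (u_lg hN.toPoly).toPoly) (u_lg hN.toPoly) fun _ => min_le_right _ _

theorem p_strsEq' {n N : α → ℕ} (hn : Poly n) (hN : UPoly N) :
    Poly (fun a => strsEq (min (n a) (lg (N a)))) :=
  p_strsEq (u_minlg hn hN) (UPoly.add hN (UPoly.const 1)) fun a =>
    (Nat.pow_le_pow_right (by norm_num) (min_le_right _ _)).trans (two_pow_lg_le _)

theorem p_goodL {g : List Bool → List Bool} (hg : Poly g) (M : ℕ → Alg) (p : ℕ → Polynomial ℕ)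
    (c : ℕ) {S : α → List (List Bool)} {m n N : α → ℕ} {q : α → List Bool} (hS : Poly S)
    (hm : UPoly m) (hn : Poly n) (hN : UPoly N) (hq : Poly q) :
    Poly (fun a => goodL g M p c (m a) (n a) (S a) (N a) (q a)) := by
  have h1 : Poly (fun p : α × List Bool => p.1) := Poly.fst Poly.id
  have h2 : Poly (fun p : α × List Bool => p.2) := Poly.snd Poly.id
  refine NPC.Poly.filter (p := fun a w => memL (M c) (p c) ((asks (m a) c w).map g ++ S a) (N a)
    (q a)) (p_strsEq' hn hN) ?_
  refine p_memL (M c) (p c) (Poly.append ?_ (hS.comp h1)) (hN.comp h1) (hq.comp h1)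
  exact NPC.Poly.map (F := fun _ x => g x) (p_asks (hm.comp h1) (UPoly.const c) h2)
    (hg.comp (Poly.snd Poly.id))

theorem p_capL {g : List Bool → List Bool} (hg : Poly g) (M : ℕ → Alg) (p : ℕ → Polynomial ℕ)
    (K : ℕ) {S : α → List (List Bool)} {N n l : α → ℕ} (hS : Poly S) (hN : UPoly N) (hn : Poly n)
    (hl : Poly l) : Poly (fun a => capL g M p K (S a) (N a) (n a) (l a)) := by
  have h1 : Poly (fun p : α × List Bool => p.1) := Poly.fst Poly.id
  have h2 : Poly (fun p : α × List Bool => p.2) := Poly.snd Poly.id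
  have hm : UPoly (fun a => min (n a + ax (l a)) (N a)) :=
    u_min (Poly.add hn (u_ax hl).toPoly) hN
  have hL : Poly (fun p : α × List Bool => (strsEq (min (n p.1) (lg (N p.1)))).length) :=
    (Poly.length (p_strsEq' hn hN)).comp h1
  have hG : ∀ c, Poly (fun r : α × List Bool =>
      decide ((strsEq (min (n r.1) (lg (N r.1)))).length ≤
        2 * (goodL g M p c (min (n r.1 + ax (l r.1)) (N r.1)) (n r.1) (S r.1) (N r.1) r.2).length)) := by
    intro c
    exact Poly.decide_le hL (Poly.mul (NPC.Poly.const 2) (Poly.length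
      (p_goodL hg M p c (hS.comp h1) (hm.comp h1) (hn.comp h1) (hN.comp h1) h2)))
  refine NPC.Poly.any (p := fun a q => decide (K * q.length.size ≤ n a) &&
    (decide ((strsEq (min (n a) (lg (N a)))).length ≤
      2 * (goodL g M p 0 (min (n a + ax (l a)) (N a)) (n a) (S a) (N a) q).length) &&
     decide ((strsEq (min (n a) (lg (N a)))).length ≤
      2 * (goodL g M p 1 (min (n a + ax (l a)) (N a)) (n a) (S a) (N a) q).length)))
    (p_strs_lg hN) (Poly.and ?_ (Poly.and (hG 0) (hG 1)))
  exact Poly.decide_le (Poly.mul (NPC.Poly.const K) (u_size (Poly.length h2)).toPoly)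
    (hn.comp h1)

theorem p_levL {g : List Bool → List Bool} (hg : Poly g) (M : ℕ → Alg) (p : ℕ → Polynomial ℕ)
    (K i0 : ℕ) {S : α → List (List Bool)} {N i : α → ℕ} (hS : Poly S) (hN : UPoly N)
    (hi : UPoly i) : Poly (fun a => levL g M p K i0 (S a) (N a) (i a)) := by
  have hd : UPoly (fun a => i a - i0) :=
    UPoly.of_le (Poly.sub hi.toPoly (NPC.Poly.const i0)) hi fun _ => Nat.sub_le _ _
  obtain ⟨r, hr⟩ := uPoly_le hd
  refine NPC.Poly.foldl (l := fun a => List.range (i a - i0)) (s := fun _ => (0 : ℕ))
    (F := fun (a : α) (l k : ℕ) =>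
      l + (if capL g M p K (S a) (N a) (lg^[2 * ((i a - i0) - k)] (N a)) l = true then 0 else 1))
    hd.range (NPC.Poly.const 0) ?_ (Polynomial.C 4 * r + Polynomial.C 1) ?_
  · have h1 : Poly (fun p : α × ℕ × ℕ => p.1) := Poly.fst Poly.id
    have h2 : Poly (fun p : α × ℕ × ℕ => p.2.1) := Poly.fst (Poly.snd Poly.id)
    have h3 : Poly (fun p : α × ℕ × ℕ => p.2.2) := Poly.snd (Poly.snd Poly.id)
    have h4 : UPoly (fun p : α × ℕ × ℕ => (i p.1 - i0) - p.2.2) :=
      UPoly.of_le (Poly.sub (hd.toPoly.comp h1) h3) (hd.comp h1) fun _ => Nat.sub_le _ _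
    have h5 : UPoly (fun p : α × ℕ × ℕ => 2 * ((i p.1 - i0) - p.2.2)) :=
      UPoly.mul (UPoly.const 2) h4
    have h6 : UPoly (fun p : α × ℕ × ℕ => lg^[2 * ((i p.1 - i0) - p.2.2)] (N p.1)) :=
      u_lgI (hN.comp h1) h5
    have h7 : Poly (fun r : α × ℕ × ℕ => capL g M p K (S r.1) (N r.1)
        (lg^[2 * ((i r.1 - i0) - r.2.2)] (N r.1)) r.2.1) :=
      p_capL hg M p K (hS.comp h1) (hN.comp h1) h6.toPoly h2
    exact Poly.add h2 (Poly.ite (Poly.decide_bool h7) (NPC.Poly.const 0) (NPC.Poly.const 1))
  · intro a k _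
    have h1 := foldl_le (fun l k => capL g M p K (S a) (N a)
      (lg^[2 * ((i a - i0) - k)] (N a)) l) ((List.range (i a - i0)).take k) 0
    have h2 : ((List.range (i a - i0)).take k).length ≤ i a - i0 := by
      rw [List.length_take, List.length_range]
      exact min_le_right _ _
    have h3 := hr a
    set v := ((List.range (i a - i0)).take k).foldl (fun l k =>
      l + (if capL g M p K (S a) (N a) (lg^[2 * ((i a - i0) - k)] (N a)) l = true then 0 else 1)) 0
      with hv
    have h4 := sz_nat_le v
    have h5 := Poly.size_le_self v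
    simp only [Polynomial.eval_add, Polynomial.eval_mul, Polynomial.eval_C]
    omega

end

/-! ### The verifier -/

section

variable (g : List Bool → List Bool) (M : ℕ → Alg) (p : ℕ → Polynomial ℕ) (K i0 i1 c : ℕ)

/-- the questions -/
def askN (g : List Bool → List Bool) (c : ℕ) (y : List Bool × List Bool) : List (List Bool) :=
  strs (lg y.1.length) ++ (asks (2 * y.1.length + 8) c y.2).map g

/-- the decision, given the answers -/
def decN (x w ans : List Bool) : Bool :=
  decide (x = List.replicate x.length false) && (decide (w.length = x.length) &&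
    (decide (ix x.length = 2 * (ix x.length / 2) + 1) && (decide (i1 ≤ ix x.length / 2) &&
      ((ans.drop (strs (lg x.length)).length).take (x.length +
        ax (levL g M p K i0 (selL (strs (lg x.length)) (ans.take (strs (lg x.length)).length))
          x.length (ix x.length / 2)))).all id)))

theorem p_askN {g : List Bool → List Bool} (hg : Poly g) : Poly (askN g c) := by
  have h1 : Poly (fun y : List Bool × List Bool => y.1) := Poly.fst Poly.id
  have h2 : Poly (fun y : List Bool × List Bool => y.2) := Poly.snd Poly.id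
  refine Poly.append (p_strs_lg (UPoly.length h1)) ?_
  exact NPC.Poly.map (F := fun _ x => g x) (p_asks (UPoly.add (UPoly.mul (UPoly.const 2)
    (UPoly.length h1)) (UPoly.const 8)) (UPoly.const c) h2) (hg.comp (Poly.snd Poly.id))

theorem p_decN {g : List Bool → List Bool} (hg : Poly g) :
    Poly (fun z : (List Bool × List Bool) × List Bool => decN g M p K i0 i1 z.1.1 z.1.2 z.2) := by
  have hx : Poly (fun z : (List Bool × List Bool) × List Bool => z.1.1) :=
    Poly.fst (Poly.fst Poly.id)
  have hw : Poly (fun z : (List Bool × List Bool) × List Bool => z.1.2) :=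
    Poly.snd (Poly.fst Poly.id)
  have ha : Poly (fun z : (List Bool × List Bool) × List Bool => z.2) := Poly.snd Poly.id
  have hn := UPoly.length hx
  have hs := p_strs_lg hn
  have h3 : UPoly (fun z : (List Bool × List Bool) × List Bool => ix z.1.1.length) :=
    UPoly.of_le (p_ix hn) hn fun _ => ix_le _
  have h4 : UPoly (fun z : (List Bool × List Bool) × List Bool => ix z.1.1.length / 2) :=
    UPoly.of_le (Poly.div h3.toPoly (NPC.Poly.const 2)) h3 fun _ => Nat.div_le_self _ _
  have h5 := p_levL hg M p K i0 (p_selL hs (p_take' ha (UPoly.length hs))) hn h4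
  refine Poly.and (Poly.decide_eq hx (p_replicate hn)) (Poly.and
    (Poly.decide_eq (Poly.length hw) (Poly.length hx)) (Poly.and
    (Poly.decide_eq h3.toPoly (Poly.succ (Poly.mul (NPC.Poly.const 2) h4.toPoly)))
    (Poly.and (Poly.decide_le (NPC.Poly.const i1) h4.toPoly) ?_)))
  exact p_all_id (p_take' (p_drop ha (UPoly.length hs)) (UPoly.add hn (u_ax h5)))

end

theorem take_range' (m n : ℕ) (h : m ≤ n) : (List.range n).take m = List.range m := by
  rw [List.take_range, min_eq_left h]

/-- PIECE NP. -/
theorem t_NP : S_NP := by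
  intro O E M p K i0 ok i1 hi1 A c _
  refine isNP_of_tt (O A) _ (Q := askN E.g c)
    (T := fun z => decN E.g M p K i0 i1 z.1.1 z.1.2 z.2) (p_askN c E.pg)
    (p_decN M p K i0 i1 E.pg) Polynomial.X fun x => ?_
  have hans : ∀ w : List Bool, (askN E.g c (x, w)).map (O A) =
      (strs (lg x.length)).map (O A) ++ (asks (2 * x.length + 8) c w).map A := by
    intro w
    unfold askN
    rw [List.map_append, map_map_emb E.toEmb]
  have htake : ∀ w : List Bool, ((askN E.g c (x, w)).map (O A)).take (strs (lg x.length)).length =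
      (strs (lg x.length)).map (O A) := by
    intro w
    rw [hans, List.take_left' (by rw [List.length_map])]
  have hdrop : ∀ w : List Bool, ((askN E.g c (x, w)).map (O A)).drop (strs (lg x.length)).length =
      (asks (2 * x.length + 8) c w).map A := by
    intro w
    rw [hans, List.drop_left' (by rw [List.length_map])]
  have hlev : ∀ i, i1 ≤ i → x.length = T i →
      levL E.g M p K i0 ((strs (lg x.length)).filter (O A)) x.length i = lv O M p K i0 A i := by
    intro i hi hx
    rw [hx]
    exact levL_eq E ok (hi1.trans hi) fun y hy => ofL_filter' _ hy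
  have hix : ∀ i, ix (T i) = 2 * i + 1 := fun i => ix_tw (2 * i)
  have hhit : ∀ i, x.length = T i → ∀ w : List Bool,
      ((((asks (2 * x.length + 8) c w).map A).take (x.length + ax (lv O M p K i0 A i))).all id = true ↔
        Hit (T i + ax (lv O M p K i0 A i)) (c, w) A) := by
    intro i hx w
    rw [← List.map_take, ← asks_all]
    have e1 := ax_le' (lv O M p K i0 A i)
    have e2 := (lv_le' (O := O) (M := M) (p := p) (K := K) (i0 := i0) A i).trans (le_T i)
    have e3 : (asks (2 * x.length + 8) c w).take (x.length + ax (lv O M p K i0 A i)) =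
        asks (T i + ax (lv O M p K i0 A i)) c w := by
      unfold asks
      rw [← List.map_take, take_range' _ _ (by omega), hx]
    rw [e3]
  constructor
  · rintro ⟨i, hi, rfl, w, hw, hh⟩
    rw [List.length_replicate] at *
    refine ⟨w, ?_, ?_⟩
    · rw [Polynomial.eval_X, hw]
    · change decN E.g M p K i0 i1 (List.replicate (T i) false) w
        ((askN E.g c (List.replicate (T i) false, w)).map (O A)) = true
      unfold decN
      rw [List.length_replicate, htake w, hdrop w, selL_map, hix i]
      have e1 : (2 * i + 1) / 2 = i := by omega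
      rw [e1, hlev i hi rfl]
      simp only [Bool.and_eq_true, decide_eq_true_eq]
      exact ⟨trivial, hw, trivial, hi, (hhit i rfl w).2 hh⟩
  · rintro ⟨w, -, hw⟩
    change decN E.g M p K i0 i1 x w ((askN E.g c (x, w)).map (O A)) = true at hw
    unfold decN at hw
    rw [htake w, hdrop w, selL_map] at hw
    simp only [Bool.and_eq_true, decide_eq_true_eq] at hw
    obtain ⟨hx, hwl, h3, h4, h5⟩ := hw
    have hT : x.length = T (ix x.length / 2) := tw_of_ix h3
    rw [hlev _ h4 hT] at h5
    refine ⟨ix x.length / 2, h4, ?_, w, by rw [hwl, ← hT], (hhit _ hT w).1 h5⟩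
    rw [← hT]
    exact hx

end Pool.Agent.J4H25.NPP
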