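import Pool.Agent.J4H25.NPP.Main

set_option autoImplicit false

/-!
# No proof system proves the disjointness of all disjoint pairs
-/

namespace Pool.Agent.J4H25.NPP

open MeasureTheory Filter Pool.Agent.NPC Pool.Agent.H628R3.RO Pool.Agent.J4H63.ESY Pool.Agent.J4H45.OPT

section

/-- the decision of the verifier, given `⟨y, ⟨r₁, ⟨r₂, r₃⟩⟩⟩` -/
def post (p : Polynomial ℕ) (π : List Bool → List Bool) (t : List Bool) : List Bool :=
  if (unpair (unpair t).2).1 = [true] ∧
      (unpair (unpair (unpair t).2).2).1 = (unpair (unpair (unpair t).2).2).2 ∧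
      (unpair (unpair (unpair t).1).2).1.length ≤
        p.eval (π (unpair (unpair (unpair t).1).1).1).length ∧
      (unpair (unpair (unpair t).1).2).2.length ≤ (unpair (unpair (unpair t).1).1).2.length
  then [true] else []

theorem p_post (p : Polynomial ℕ) {π : List Bool → List Bool} (hπ : Poly π) :
    Poly (post p π) := by
  have h0 : Poly (fun t : List Bool => unpair t) := poly_unpair
  have h2 : Poly (fun t : List Bool => unpair (unpair t).2) := poly_unpair.comp (Poly.snd h0)
  have h22 : Poly (fun t : List Bool => unpair (unpair (unpair t).2).2) :=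
    poly_unpair.comp (Poly.snd h2)
  have h1 : Poly (fun t : List Bool => unpair (unpair t).1) := poly_unpair.comp (Poly.fst h0)
  have h11 : Poly (fun t : List Bool => unpair (unpair (unpair t).1).1) :=
    poly_unpair.comp (Poly.fst h1)
  have h12 : Poly (fun t : List Bool => unpair (unpair (unpair t).1).2) :=
    poly_unpair.comp (Poly.snd h1)
  refine Poly.ite ?_ (NPC.Poly.const _) (NPC.Poly.const _)
  refine Poly.decide_and (Poly.decide_eq (Poly.fst h2) (NPC.Poly.const _)) ?_
  refine Poly.decide_and (Poly.decide_eq (Poly.fst h22) (Poly.snd h22)) ?_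
  refine Poly.decide_and (Poly.decide_le (Poly.length (Poly.fst h12))
    ((UPoly.length (hπ.comp (Poly.fst h11))).eval p).toPoly) ?_
  exact Poly.decide_le (Poly.length (Poly.snd h12)) (Poly.length (Poly.snd h11))

/-- the `z = ⟨x, s⟩` such that `π x` is in `U` and the statement `G x` has a `P`-proof of length at
most `|s|` -/
theorem isNP_short {B : Oracle} {U : Set (List Bool)} (hU : IsNP B U)
    {P G : List Bool → List Bool} (hP : IsFP B P) (hG : IsFP B G)
    {π : List Bool → List Bool} (hπ : Poly π) :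
    IsNP B {z | π (unpair z).1 ∈ U ∧
      ∃ v : List Bool, v.length ≤ (unpair z).2.length ∧ P v = G (unpair z).1} := by
  obtain ⟨V, p, hV, h⟩ := hU
  have h0 : Poly (fun t : List Bool => unpair t) := poly_unpair
  have h1 : Poly (fun t : List Bool => unpair (unpair t).1) := poly_unpair.comp (Poly.fst h0)
  have h2 : Poly (fun t : List Bool => unpair (unpair t).2) := poly_unpair.comp (Poly.snd h0)
  have F0 : IsFP B (fun y => y) := IsFP.of_poly Poly.id
  have F1 : IsFP B (fun y => V (pairBits (π (unpair (unpair y).1).1) (unpair (unpair y).2).1)) :=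
    IsFP.comp hV (IsFP.of_poly (H622R2.poly_pairBits (hπ.comp (Poly.fst h1)) (Poly.fst h2)))
  have F2 : IsFP B (fun y => P (unpair (unpair y).2).2) :=
    IsFP.comp hP (IsFP.of_poly (Poly.snd h2))
  have F3 : IsFP B (fun y => G (unpair (unpair y).1).1) :=
    IsFP.comp hG (IsFP.of_poly (Poly.fst h1))
  have H := IsFP.comp (IsFP.of_poly (p_post p hπ)) (IsFP.pair F0 (IsFP.pair F1 (IsFP.pair F2 F3)))
  obtain ⟨b, hb⟩ := IsFP.length_le (IsFP.of_poly (A := B) (hπ.comp (Poly.fst h0)))
  obtain ⟨b', hb'⟩ := IsFP.length_le (IsFP.of_poly (A := B) (Poly.snd h0))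
  refine ⟨_, Polynomial.C 2 * p.comp b + Polynomial.C 1 + b', H, fun z => ?_⟩
  have key : ∀ u : List Bool, post p π (pairBits (pairBits z u)
      (pairBits (V (pairBits (π (unpair (unpair (pairBits z u)).1).1)
        (unpair (unpair (pairBits z u)).2).1))
      (pairBits (P (unpair (unpair (pairBits z u)).2).2)
        (G (unpair (unpair (pairBits z u)).1).1)))) = [true] ↔
      V (pairBits (π (unpair z).1) (unpair u).1) = [true] ∧ P (unpair u).2 = G (unpair z).1 ∧
        (unpair u).1.length ≤ p.eval (π (unpair z).1).length ∧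
        (unpair u).2.length ≤ (unpair z).2.length := by
    intro u
    unfold post
    simp only [unpair_pairBits]
    split_ifs with hc
    · simp only [true_iff]
      exact hc
    · simp only [false_iff]
      exact hc
  constructor
  · rintro ⟨hx, v, hv, hPv⟩
    obtain ⟨w, hw, hVw⟩ := (h _).1 hx
    refine ⟨pairBits w v, ?_, (key _).2 ?_⟩
    · rw [length_pairBits_A3]
      simp only [Polynomial.eval_add, Polynomial.eval_mul, Polynomial.eval_C,
        Polynomial.eval_comp]
      have e1 := eval_mono p (hb z)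
      have e2 := hb' z
      omega
    · rw [unpair_pairBits]
      exact ⟨hVw, hPv, hw, hv⟩
  · rintro ⟨u, -, hu⟩
    obtain ⟨a1, a2, a3, a4⟩ := (key u).1 hu
    exact ⟨(h _).2 ⟨_, a3, a1⟩, _, a4, a2⟩

/-- the system `P` with the additional axioms `H x` -/
def plusAx (P H : List Bool → List Bool) (w : List Bool) : List Bool :=
  if w.head? = some true then H w.tail else P w.tail

theorem plusAx_isProofSystem {B : Oracle} {L : Set (List Bool)} {P H : List Bool → List Bool}
    (hP : IsProofSystem B L P) (hH : IsFP B H) (hL : ∀ x, H x ∈ L) :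
    IsProofSystem B L (plusAx P H) := by
  have ht : IsFP B (fun w : List Bool => w.tail) := IsFP.of_poly (Poly.tail Poly.id)
  refine ⟨?_, ?_⟩
  · have h1 : IsFP B (fun w => H w.tail) := IsFP.comp hH ht
    exact IsFP.seq (φ := fun p => p.1.tail)
      (ψ := fun p => if p.1.head? = some true then p.2.1 else p.2.2) h1 hP.1
      (Poly.tail (Poly.fst Poly.id))
      (Poly.ite (Poly.decide_eq (Poly.head? (Poly.fst Poly.id)) (NPC.Poly.const _))
        (Poly.fst (Poly.snd Poly.id)) (Poly.snd (Poly.snd Poly.id)))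
  · apply Set.Subset.antisymm
    · rintro x ⟨w, rfl⟩
      unfold plusAx
      split_ifs
      · exact hL _
      · rw [← hP.2]
        exact ⟨_, rfl⟩
    · intro x hx
      rw [← hP.2] at hx
      obtain ⟨v, rfl⟩ := hx
      refine ⟨false :: v, ?_⟩
      unfold plusAx
      rw [if_neg (by simp), List.tail_cons]

/-- Every proof system is improved exponentially by the statements of the disjointness of some
pair. Let `P` be a proof system for `L`, let `S` be in `NP` and let `G ⟨a, b⟩` be the statement that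
`a` and `b` are not both in `S`. Then there is a disjoint pair `(X, Y)` of nonempty tally sets in `UP`
such that for all reductions `r₀` of `X` to `S` and `r₁` of `Y` to `S`, the system `Q` which has the
additional axioms `G ⟨r₀ x, r₁ x⟩` for all `x` (the statements that `x` is not both in `X` and in `Y`)
is a proof system for `L`, and infinitely many of these axioms, for `x` in `X` or `Y`, have only
`P`-proofs of exponential length. -/
def DisjointnessAxioms (B : Oracle) : Prop :=
  ∀ (L : Set (List Bool)) (P : List Bool → List Bool), IsProofSystem B L P →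
    ∀ S : Set (List Bool), IsNP B S →
    ∀ G : List Bool → List Bool, IsFP B G →
      (∀ a b, G (pairBits a b) ∈ L ↔ ¬ (a ∈ S ∧ b ∈ S)) →
    ∃ X Y : Set (List Bool), IsPair (IsUP B) X Y ∧ X.Nonempty ∧ Y.Nonempty ∧
      (∀ x, x ∈ X ∨ x ∈ Y → ∃ n, x = List.replicate n false) ∧
      ∃ k ≥ 1, ∀ r₀ r₁ : List Bool → List Bool, IsFP B r₀ → IsFP B r₁ →
        (∀ x, x ∈ X ↔ r₀ x ∈ S) → (∀ x, x ∈ Y ↔ r₁ x ∈ S) →
        ∃ Q, IsProofSystem B L Q ∧ (∀ v, Q (false :: v) = P v) ∧
          (∀ x, Q (true :: x) = G (pairBits (r₀ x) (r₁ x))) ∧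
          ∀ N : ℕ, ∃ x : List Bool, N ≤ x.length ∧ (x ∈ X ∨ x ∈ Y) ∧
            ∀ v, P v = Q (true :: x) → 2 ^ (x.length / k) < v.length

theorem Core.axioms {B : Oracle} (h : Core B) : DisjointnessAxioms B := by
  intro L P hP S hS G hG hL
  have hπ₀ : Poly (fun x : List Bool => (unpair x).1) := Poly.fst poly_unpair
  have hπ₁ : Poly (fun x : List Bool => (unpair x).2) := Poly.snd poly_unpair
  have hG' : IsFP B (fun x => G (pairBits (unpair x).1 (unpair x).2)) :=
    IsFP.comp hG (IsFP.of_poly (H622R2.poly_pairBits hπ₀ hπ₁))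
  obtain ⟨X, Y, hXY, hX, hY, ht, -, k, hk, hF⟩ :=
    h _ _ ⟨isNP_short hS hP.1 hG' hπ₀, isNP_short hS hP.1 hG' hπ₁, by
      rintro z ⟨⟨hz, v, -, hv⟩, hz', -⟩
      refine (hL _ _).1 ?_ ⟨hz, hz'⟩
      rw [← hv, ← hP.2]
      exact ⟨v, rfl⟩⟩
  refine ⟨X, Y, hXY, hX, hY, ht, k, hk, fun r₀ r₁ h₀ h₁ hr₀ hr₁ => ?_⟩
  have hH : IsFP B (fun x => G (pairBits (r₀ x) (r₁ x))) := IsFP.comp hG (IsFP.pair h₀ h₁)
  refine ⟨plusAx P (fun x => G (pairBits (r₀ x) (r₁ x))), plusAx_isProofSystem hP hH ?_, ?_, ?_,
    fun N => ?_⟩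
  · intro x
    rw [hL, ← hr₀, ← hr₁]
    exact hXY.2.2 x
  · intro v
    unfold plusAx
    rw [if_neg (by simp), List.tail_cons]
  · intro x
    unfold plusAx
    rw [if_pos (by simp), List.tail_cons]
  · obtain ⟨x, hN, hx⟩ := hF _ (IsFP.pair h₀ h₁) N
    refine ⟨x, hN, hx.imp And.left And.left, fun v hv => ?_⟩
    have hv' : P v = G (pairBits (r₀ x) (r₁ x)) := by
      rw [hv]
      unfold plusAx
      rw [if_pos (by simp), List.tail_cons]
    by_contra hcon
    have hle : v.length ≤ 2 ^ (x.length / k) := by omega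
    have hpad : unpair (padE k x.length (pairBits (r₀ x) (r₁ x))) =
        (pairBits (r₀ x) (r₁ x), List.replicate (2 ^ (x.length / k)) false) := by
      unfold padE
      rw [unpair_pairBits]
    have hex : ∃ v : List Bool,
        v.length ≤ (unpair (padE k x.length (pairBits (r₀ x) (r₁ x)))).2.length ∧
        P v = G (pairBits (unpair (unpair (padE k x.length (pairBits (r₀ x) (r₁ x)))).1).1
          (unpair (unpair (padE k x.length (pairBits (r₀ x) (r₁ x)))).1).2) := by
      rw [hpad]
      refine ⟨v, ?_, ?_⟩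
      · simp only [List.length_replicate]
        exact hle
      · simp only [unpair_pairBits]
        exact hv'
    rcases hx with ⟨hx, hn⟩ | ⟨hx, hn⟩
    · refine hn ⟨?_, hex⟩
      rw [hpad]
      simp only [unpair_pairBits]
      exact (hr₀ x).1 hx
    · refine hn ⟨?_, hex⟩
      rw [hpad]
      simp only [unpair_pairBits]
      exact (hr₁ x).1 hx

end

end Pool.Agent.J4H25.NPP
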