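import Pool.Agent.J4H45.EXP.Sum

set_option autoImplicit false

/-!
# Project NPP (helper25): no complete disjoint NP-pair relative to a random oracle

THEOREM. For almost all `A` (also joined with any fixed oracle `E`): for every disjoint pair `(C, D)` of `NP` sets there is a
disjoint pair `(X, Y)` of tally `NP` sets which is not many-one reducible to `(C, D)` (all relative to the oracle).

IDEA. Stage `i` is about `n = T i` (a tower). `w` of length `n` is an `X`-hit (`Y`-hit) of level `l` if the first `n + ax l` bits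
belonging to the candidate `(0, w)` (`(1, w)`) are ones; so there are `X`-hits with probability about `2 ^ (-ax l)`, both with
`2 ^ (-2 ax l)`; `∑ 2 ^ (-2 ax l) < ∞`, `∑ 2 ^ (-ax l) = ∞`. `X` (`Y`) is the set of the `0^(T i)` such that there is an `X`-hit
(`Y`-hit) of level `lv A i`. The level is the number of earlier stages at which `(C, D)` does NOT capture: it captures (`Cap`) if
there is `q` such that for at least half of the `w` planting the candidate `(0, w)` into `A` puts `q` into `C`, and for at least half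
of the `w` planting `(1, w)` puts `q` into `D`. Planting both gives an error (`q` in `C` and in `D`), so the sum of
`2 ^ (-2 ax (lv A i))` over the capturing stages is finite if there is no error; over the other stages it is finite by definition. So
almost surely `X ∩ Y` is finite, and `lv A i → ∞`. A reduction `F` fails at `0^(T i)` with probability `≥ c 2 ^ (-ax (lv A i))` at
each stage which is not capturing, and the sum of these numbers is infinite.
-/

namespace Pool.Agent.J4H25.NPP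

open MeasureTheory Filter Pool.Agent.NPC Pool.Agent.H628R3.RO Pool.Agent.J4H63.ESY Pool.Agent.J4H45.OPT
open Pool.Agent.J4H45.EXP (T wds)

/-- the exponent at level `m`: `2 ^ ax m` is about `128 (m + 1) ^ (3 / 4)` -/
def ax (m : ℕ) : ℕ := 7 + ((m + 1) ^ 3).size / 4

/-- membership of `q` in the `NP` set given by the verifier `M` and the bound `p` -/
def Mem (M : Alg) (p : Polynomial ℕ) (B : Oracle) (q : List Bool) : Prop :=
  ∃ u : List Bool, u.length ≤ p.eval q.length ∧ M.out B (pairBits q u) = some [true]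

/-- Oracles `O A` made from `A` and fixed information: the value of `A` at `x` is the value of `O A` at `g x`, all other values of
`O A` do not depend on `A`. -/
structure Emb2 (O : Oracle → Oracle) extends Emb O where
  indep : ∀ q : List Bool, (∀ x, q ≠ g x) → ∀ A A' : Oracle, O A q = O A' q

section

variable (O : Oracle → Oracle) (M : ℕ → Alg) (p : ℕ → Polynomial ℕ) (K i0 : ℕ)

/-- an error at stage `i`: some short `q` is in both sets -/
def Er (i : ℕ) : Set Oracle :=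
  {A | ∃ q : List Bool, K * q.length.size ≤ T i ∧ Mem (M 0) (p 0) (O A) q ∧ Mem (M 1) (p 1) (O A) q}

open Classical in
/-- the words `w` such that planting the candidate `(c, w)` with `m` bits puts `q` into the set number `c` -/
noncomputable def good (A : Oracle) (c n m : ℕ) (q : List Bool) : Finset (List Bool) :=
  (wds n).filter fun w => Mem (M c) (p c) (O (plant (spots m (c, w)) A)) q

/-- the pair captures stage `i` at level `l` -/
def Cap (i l : ℕ) : Set Oracle :=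
  {A | ∃ q : List Bool, K * q.length.size ≤ T i ∧ 2 ^ T i ≤ 2 * (good O M p A 0 (T i) (T i + ax l) q).card ∧
    2 ^ T i ≤ 2 * (good O M p A 1 (T i) (T i + ax l) q).card}

open Classical in
/-- the levels: go to the next level if the stage is not captured -/
noncomputable def lv (A : Oracle) : ℕ → ℕ
  | 0 => 0
  | i + 1 => if i < i0 then 0 else lv A i + (if A ∈ Cap O M p K i (lv A i) then 0 else 1)

/-- there is a hit of copy `c` (`0` for `X`, `1` for `Y`) at stage `i`, level `l` -/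
def Hev (c i l : ℕ) : Set Oracle := {A | ∃ w : List Bool, w.length = T i ∧ Hit (T i + ax l) (c, w) A}

/-- the new sets: `Lg 0 = X`, `Lg 1 = Y` -/
def Lg (i1 : ℕ) (A : Oracle) (c : ℕ) : Set (List Bool) :=
  {x | ∃ i, i1 ≤ i ∧ x = List.replicate (T i) false ∧ A ∈ Hev c i (lv O M p K i0 A i)}

/-- the value of the reduction at `0^(T i)` -/
def qF (MF : Alg) (A : Oracle) (i : ℕ) : List Bool := (MF.out (O A) (List.replicate (T i) false)).getD []

/-- the reduction fails at stage `i` (if the level is `l`) -/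
def Fl (MF : Alg) (i l : ℕ) : Set Oracle :=
  {A | ∃ c, c < 2 ∧ A ∈ Hev c i l ∧ ¬ Mem (M c) (p c) (O A) (qF O MF A i)}

end

/-- the constants are suitable -/
structure Ok (M : ℕ → Alg) (p : ℕ → Polynomial ℕ) (K i0 : ℕ) : Prop where
  pos : 1 ≤ K
  len : ∀ i ≥ i0, ∀ q : List Bool, K * q.length.size ≤ T i → ∀ c < 2, (p c).eval q.length ≤ 2 ^ T i
  touch : ∀ i ≥ i0, ∀ q : List Bool, K * q.length.size ≤ T i → ∀ c < 2, ∀ u : List Bool,
    u.length ≤ (p c).eval q.length → 32 * (M c).p.eval (pairBits q u).length ≤ 2 ^ T i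
  congr : ∀ i ≥ i0, ∀ q : List Bool, K * q.length.size ≤ T i → ∀ c < 2, ∀ u : List Bool,
    u.length ≤ (p c).eval q.length → ∀ B B' : Oracle,
    (∀ x : List Bool, x.length ≤ 2 ^ T i → B x = B' x) → (M c).out B (pairBits q u) = (M c).out B' (pairBits q u)
  spots : ∀ i ≥ i0, 5 * T i + 20 ≤ 2 ^ T i

/-- JOB OK. As `EXP.exists_ok` (`J4H45/EXP/Ev.lean`), with `q.length.size` for `y.length.size`. -/
def S_OK : Prop := ∀ (M : ℕ → Alg) (p : ℕ → Polynomial ℕ), ∃ K i0, Ok M p K i0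

/-- JOB AF (arithmetic of `ax`). -/
def S_AF : Prop := (∑' m, (2⁻¹ : ENNReal) ^ (2 * ax m) ≠ ⊤) ∧ (∑' m, (2⁻¹ : ENNReal) ^ (ax m) = ⊤) ∧
  ∀ m, 7 ≤ ax m ∧ ax m ≤ m + 8

/-- JOB LOC (with `Ok`; models: `loc_Er`, `loc_lv`, `loc_Dn` in `J4H45/EXP/Ev.lean`). The oracle `O A` at strings of length `≤ m` depends
on `A` at strings of length `≤ m` only (`Emb.loc`, `Emb.len`). In `Cap` the planted strings do not matter: both oracles are planted
in the same way. `Hev`: the strings `pos c b w` have length `c + b + T i + 2`, between `T i + 1` and `2 ^ T i`. For `Fl` one needs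
that `qF` is short for large `i`. -/
def S_LOC : Prop := ∀ (O : Oracle → Oracle) (_ : Emb2 O) (M : ℕ → Alg) (p : ℕ → Polynomial ℕ) (K i0 : ℕ), Ok M p K i0 →
  (∀ i ≥ i0, Loc {x | x.length ≤ 2 ^ T i} (Er O M p K i)) ∧
  (∀ i ≥ i0, ∀ l, Loc {x | x.length ≤ 2 ^ T i} (Cap O M p K i l)) ∧
  (∀ i l, Loc {x | x.length ≤ T i} {A | lv O M p K i0 A i = l}) ∧
  (∀ i ≥ i0, ∀ l ≤ i, ∀ c < 2, Loc {x | T i < x.length ∧ x.length ≤ 2 ^ T i} (Hev c i l)) ∧
  ∀ MF : Alg, ∃ i1 ≥ i0, ∀ i ≥ i1, ∀ l ≤ i, Loc {x | x.length ≤ 2 ^ T i} (Fl O M p MF i l)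

/-- JOB UP (upper bounds). The events `Hit (n + a) (c, w)` are independent, of probability `2 ^ (-(n + a))`, and independent of
`R`, whose coordinates are shorter (`EXP.measure_inter_of_disjoint`, `spots_disjoint`, `card_spots`; `P (R ∩ Hit κ₁ ∩ … ∩ Hit κ_k) =
2 ^ (- k (n + a)) P R` for different `κ_j`). With `N` = the number of hits (`c = 0, 1`): `N ≤ 1 + N (N - 1)` and `N_X N_Y ≤ 1 + N (N - 1)
(N - 2)`, and both are `0` if `N = 0`; there are `2 ^ (n + 1)` candidates. Third part: union bound. -/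
def S_UP : Prop := ∀ (n a : ℕ) (R S : Set Oracle), Loc {x | x.length ≤ n} R → MeasurableSet S →
  (∑ c ∈ Finset.range 2, ∑ w ∈ wds n, randomOracle (R ∩ S ∩ {A | Hit (n + a) (c, w) A}) ≤
    randomOracle (R ∩ S) + 4 * 2⁻¹ ^ (2 * a) * randomOracle R) ∧
  (∑ w ∈ wds n, ∑ w' ∈ wds n, randomOracle (R ∩ S ∩ {A | Hit (n + a) (0, w) A ∧ Hit (n + a) (1, w') A}) ≤
    randomOracle (R ∩ S) + 8 * 2⁻¹ ^ (3 * a) * randomOracle R) ∧
  randomOracle (R ∩ {A | (∃ w : List Bool, w.length = n ∧ Hit (n + a) (0, w) A) ∧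
    ∃ w : List Bool, w.length = n ∧ Hit (n + a) (1, w) A}) ≤ 2⁻¹ ^ (2 * a) * randomOracle R

/-- JOB PL (planting). As `OPT.plant_count` (`J4H45/OPT/Over.lean`), without the last steps: `P (plant J ⁻¹' S') ≤ 2 ^ |J| P (S' ∩ {A | A = 1
on J})` (`measure_ovr_le` for `S' ∩ {…}`), and summation. -/
def S_PL : Prop := ∀ (ι : Type) (I : Finset ι) (J : ι → Finset (List Bool)) (c k : ℕ) (S S' : Set Oracle),
  MeasurableSet S' → (∀ t ∈ I, (J t).card ≤ c) →
  (∀ A ∈ S, ∃ I' ⊆ I, k ≤ I'.card ∧ ∀ t ∈ I', plant (J t) A ∈ S') →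
  (k : ENNReal) * randomOracle S ≤ 2 ^ c * ∑ t ∈ I, randomOracle (S' ∩ {A | ∀ x ∈ J t, A x = true})

/-- JOB C1 (the double planting). For `w` in `good … 0` choose the witness `u` for `q`; the computation of `M 0` on `pairBits q u` (oracle: `A`
with `(0, w)` planted) touches at most `(M 0).p.eval … ≤ 2 ^ n / 32` words `w'` (`OPT.exists_touched`, `run_congr`, to be stated for both
copies `c`); for the other `w'` it is the same computation after planting `(1, w')`. The same for `M 1`. So of the at least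
`4 ^ n / 4` pairs at most `2 · 4 ^ n / 32` are bad. -/
def S_C1 : Prop := ∀ (O : Oracle → Oracle) (_ : Emb2 O) (M : ℕ → Alg) (p : ℕ → Polynomial ℕ) (K i0 : ℕ), Ok M p K i0 →
  ∀ i ≥ i0, ∀ l, ∀ A ∈ Cap O M p K i l, ∃ I' ⊆ (wds (T i)) ×ˢ (wds (T i)), 4 ^ T i ≤ 8 * I'.card ∧
    ∀ t ∈ I', plant (spots (T i + ax l) (0, t.1) ∪ spots (T i + ax l) (1, t.2)) A ∈ Er O M p K i

/-- JOB C2 (the reduction fails). Let `A ∉ Cap i l` and `q = qF A i` (short for large `i`): for `c = 0` or `c = 1` more than half of the `w` are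
not in `good … c`; the computation of `MF` touches only few words `w` (`run_congr` also when the output is `none`), for the others `qF` of
the planted oracle is `q`, and the planted oracle is in `Hev c i l`. -/
def S_C2 : Prop := ∀ (O : Oracle → Oracle) (_ : Emb2 O) (M : ℕ → Alg) (p : ℕ → Polynomial ℕ) (K i0 : ℕ), Ok M p K i0 →
  ∀ MF : Alg, ∃ i1 ≥ i0, ∀ i ≥ i1, ∀ l, ∀ A ∉ Cap O M p K i l, ∃ c < 2, ∃ I' ⊆ wds (T i), 2 ^ T i ≤ 4 * I'.card ∧
    ∀ w ∈ I', plant (spots (T i + ax l) (c, w)) A ∈ Fl O M p MF i l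

/-- JOB ENG (abstract summation; everything in `ENNReal`). `D k` = no error before `k`, `G k` = no failure in `[k1, k)`.
PROOF. `w m = 2 ^ (-2 a m)`, `S_N = ∑_{k<N} ∑_m w m μ (D k ∩ {lev k = m})` (finite sums: `lev k ≤ k`). By `h2` (the sets `D k ∩ Er k` are
disjoint) and `a m ≥ 7`: `∑_{k<N} ∑_m w m μ (D k ∩ {lev k = m} ∩ Cp k) ≤ 8 + S_N / 2`; and `∑_k μ (lev k = m, lev (k+1) = m+1) ≤ 1`, so
the part outside of `Cp k` is at most `W = ∑ w m`; hence `S_N ≤ 16 + 2 W`. So a.s.: without errors `∑_k w (lev k) < ∞`, in particular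
`lev k → ∞`. (c1) by `h3`. (c2): by `h4`, `∑_k ∑_m 2 ^ (-a m) μ (D k ∩ G k ∩ {lev k = m} ∩ (Cp k)ᶜ) ≤ 4 + 16 S_∞ < ∞`, so a.s. without errors
and failures `∑_{k ∉ Cp} 2 ^ (-a (lev k)) < ∞`; but each `m ≥ lev k1` occurs, `∑_{m ≥ m1} 2 ^ (-a m) = ∞`. -/
def S_ENG : Prop := ∀ (Ω : Type) [MeasurableSpace Ω] (μ : Measure Ω) [IsProbabilityMeasure μ] (a : ℕ → ℕ)
  (lev : ℕ → Ω → ℕ) (Er Bt Cp : ℕ → Set Ω),
  (∀ k m, MeasurableSet {A | lev k A = m}) → (∀ k, MeasurableSet (Er k)) → (∀ k, MeasurableSet (Bt k)) →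
  (∀ k, MeasurableSet (Cp k)) → (∀ A, lev 0 A = 0) →
  (∀ k, ∀ A ∈ Cp k, lev (k + 1) A = lev k A) → (∀ k, ∀ A ∉ Cp k, lev (k + 1) A = lev k A + 1) →
  (∀ m, 7 ≤ a m) → (∑' m, (2⁻¹ : ENNReal) ^ (2 * a m) ≠ ⊤) → (∑' m, (2⁻¹ : ENNReal) ^ (a m) = ⊤) →
  (∀ k m, (2⁻¹ : ENNReal) ^ (2 * a m) * μ ({A | ∀ j < k, A ∉ Er j} ∩ {A | lev k A = m} ∩ Cp k) ≤
    8 * μ ({A | ∀ j < k, A ∉ Er j} ∩ {A | lev k A = m} ∩ Er k) +
      64 * 2⁻¹ ^ (3 * a m) * μ ({A | ∀ j < k, A ∉ Er j} ∩ {A | lev k A = m})) →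
  (∀ k m, μ ({A | ∀ j < k, A ∉ Er j} ∩ {A | lev k A = m} ∩ Bt k) ≤
    2⁻¹ ^ (2 * a m) * μ ({A | ∀ j < k, A ∉ Er j} ∩ {A | lev k A = m})) →
  (∀ᵐ A ∂μ, (∀ k, A ∉ Er k) → ∀ᶠ k in atTop, A ∉ Bt k) ∧
  ∀ (Fl : ℕ → Set Ω) (k1 : ℕ), (∀ k ≥ k1, MeasurableSet (Fl k)) →
    (∀ k ≥ k1, ∀ m, (2⁻¹ : ENNReal) ^ (a m) *
      μ ({A | ∀ j < k, A ∉ Er j} ∩ {A | ∀ j < k, k1 ≤ j → A ∉ Fl j} ∩ {A | lev k A = m} ∩ (Cp k)ᶜ) ≤
      4 * μ ({A | ∀ j < k, A ∉ Er j} ∩ {A | ∀ j < k, k1 ≤ j → A ∉ Fl j} ∩ {A | lev k A = m} ∩ Fl k) +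
        16 * 2⁻¹ ^ (2 * a m) *
          μ ({A | ∀ j < k, A ∉ Er j} ∩ {A | ∀ j < k, k1 ≤ j → A ∉ Fl j} ∩ {A | lev k A = m})) →
    ∀ᵐ A ∂μ, (∀ k, A ∉ Er k) → ∃ k ≥ k1, A ∈ Fl k

/-- JOB NP (the new sets are in `NP`). `isNP_of_tt` (`H628R3/RO/G1.lean`) with `Q (x, w) = strs (lg |x|) ++ ((asks (2 |x| + 8) c w).map g)`; the level
is computed from the list `S` of the strings of length `≤ lg |x|` in the oracle as in `levF`, `p_levF` (`J4H45/EXP/Sys.lean`), where the oracle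
with the candidate `(c, w)` planted is `ofL ((asks m c w).map g ++ S)` (`Emb2.indep`, `Emb.emb`) and `Mem`, `good` and `Cap` are evaluated by
exhaustive search (`strs (lg N)`, `p_out`, `NPC.Poly.any`, `NPC.Poly.filter`; `lg (T i) = 2 ^ T (i - 1)`). -/
def S_NP : Prop := ∀ (O : Oracle → Oracle) (_ : Emb2 O) (M : ℕ → Alg) (p : ℕ → Polynomial ℕ) (K i0 : ℕ), Ok M p K i0 →
  ∀ (i1 : ℕ), i0 ≤ i1 → ∀ (A : Oracle) (c : ℕ), c < 2 → IsNP (O A) (Lg O M p K i0 i1 A c)

end Pool.Agent.J4H25.NPP
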